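import Mathlib
import Pool.Agent.Lib.GPF.Data

/-!
The certificate checker and its soundness.
-/

open Finset

namespace Pool.Agent.GPF

/-- sum of `f i` for `i < n` -/
def sumN (f : ℕ → ℕ) : ℕ → ℕ
  | 0 => 0
  | n + 1 => sumN f n + f n

theorem sumN_eq (f : ℕ → ℕ) (n : ℕ) : sumN f n = ∑ i ∈ range n, f i := by
  induction n with
  | zero => rfl
  | succ n ih => rw [Finset.sum_range_succ, ← ih]; rfl

/-- conjunction of `f i` for `i < n` -/
def allN (f : ℕ → Bool) : ℕ → Bool
  | 0 => true
  | n + 1 => allN f n && f n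

theorem allN_iff (f : ℕ → Bool) (n : ℕ) : allN f n = true ↔ ∀ i < n, f i = true := by
  induction n with
  | zero => simp [allN]
  | succ n ih =>
    simp only [allN, Bool.and_eq_true, ih]
    constructor
    · rintro ⟨h1, h2⟩ i hi
      rcases Nat.lt_succ_iff_lt_or_eq.1 hi with h | h
      · exact h1 i h
      · rw [h]; exact h2
    · intro h
      exact ⟨fun i hi => h i (by omega), h n (by omega)⟩

/-- the `i`-th element -/
def el (i : ℕ) : ℕ := (EL >>> (16 * i)) % 65536

/-- first digit map on indices -/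
def ixh (i : ℕ) : ℕ := (HX >>> (8 * i)) % 256

/-- second digit map on indices -/
def ixf (i : ℕ) : ℕ := (FX >>> (8 * i)) % 256

/-- common multiple of the elements -/
def LL : ℕ := 5038848000000

/-- scaled weights -/
def pw (i : ℕ) : ℕ := 10000 * (LL / el i)

/-- digit in base `2 ^ 64` -/
def dig (V i : ℕ) : ℕ := (V >>> (64 * i)) % 18446744073709551616

/-- power of the base -/
def bp (i : ℕ) : ℕ := 1 <<< (64 * i)

/-- validity of one entry -/
def entOK (e : ℕ) : Bool :=
  let i := e % 256
  let j := (e >>> 8) % 256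
  let k := (e >>> 16) % 256
  Nat.blt i 233 && Nat.blt j 233 && Nat.blt k 233 &&
    Nat.beq (el i * el k) (el j * el j) && Nat.blt (el i) (el j)

/-- value of one entry at a function -/
def entV (z : ℕ → ℕ) (e : ℕ) : ℕ :=
  (e >>> 24) * (z (e % 256) + z ((e >>> 8) % 256) + z ((e >>> 16) % 256))

/-- list of entries -/
def unpack : ℕ → ℕ → List ℕ
  | 0, _ => []
  | n + 1, D => D % 18446744073709551616 :: unpack n (D >>> 64)

/-- all entries are valid -/
def allOK : List ℕ → Bool
  | [] => true
  | e :: l => entOK e && allOK l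

/-- sum of the values -/
def sumV (z : ℕ → ℕ) : List ℕ → ℕ
  | [] => 0
  | e :: l => entV z e + sumV z l

/-- sum of the multipliers -/
def sumY : List ℕ → ℕ
  | [] => 0
  | e :: l => (e >>> 24) + sumY l

/-- loss at an index that is not fixed to zero -/
def pen (V m0 i : ℕ) : ℕ := cond (Nat.testBit m0 i) 0 (dig V i - pw i)

/-- gain at an index fixed to one -/
def gain (V m1 i : ℕ) : ℕ := cond (Nat.testBit m1 i) (pw i - dig V i) 0

/-- final comparison in a leaf -/
def leafCmp (Z V Y m0 m1 : ℕ) : Bool :=
  Nat.ble (Z + sumN (pen V m0) 233) (10000000 * Y + sumN (gain V m1) 233)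

/-- check of a leaf -/
def leafOK (V0 T0 Z n D m0 m1 : ℕ) : Bool :=
  let l := unpack n D
  allOK l && Nat.blt (T0 + 30000000 * sumY l) 18446744073709551616 &&
    leafCmp Z (V0 + 10000000 * sumV bp l) (sumY l) m0 m1

/-- check of a tree -/
def Cert.check (V0 T0 Z : ℕ) : Cert → ℕ → ℕ → Bool
  | .leaf n D, m0, m1 => leafOK V0 T0 Z n D m0 m1
  | .node i c0 c1, m0, m1 =>
    c0.check V0 T0 Z (m0 ||| (1 <<< i)) m1 && c1.check V0 T0 Z m0 (m1 ||| (1 <<< i))

/-- linear load form -/
def loadForm (A B : ℕ) (z : ℕ → ℕ) (j : ℕ) : ℕ := (LL / el j) * (A * z (ixh j) + B * z (ixf j))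

set_option maxRecDepth 100000 in
theorem check0 : cert0.check V0 9857396586114774 46331199590400000 0 0 = true := by
  decide +kernel

set_option maxRecDepth 100000 in
theorem check1 : cert1.check V1 32518078393275174 46259647948800000 0 0 = true := by
  decide +kernel

set_option maxRecDepth 100000 in
theorem check2 : cert2.check V2 43848419296855374 45516417868800000 0 0 = true := by
  decide +kernel

set_option maxRecDepth 100000 in
theorem check3 : cert3.check V3 57067150351032274 43624834329600000 0 0 = true := by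
  decide +kernel

set_option maxRecDepth 100000 in
theorem check4 : cert4.check V4 75951051856999274 35628686438400000 0 0 = true := by
  decide +kernel

set_option maxRecDepth 100000 in
theorem tableV : (V0 = sumN (loadForm 522 0 bp) 233 ∧ V1 = sumN (loadForm 522 1200 bp) 233 ∧
    V2 = sumN (loadForm 522 1800 bp) 233 ∧ V3 = sumN (loadForm 522 2500 bp) 233 ∧
    V4 = sumN (loadForm 522 3500 bp) 233) := by
  decide +kernel

set_option maxRecDepth 100000 in
theorem tableS : sumN (fun j => LL / el j) 233 = 18883901505967 := by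
  decide +kernel

/-- validity of the tables at one index -/
def tabOK (i : ℕ) : Bool :=
  Nat.beq (el i * (LL / el i)) LL && Nat.blt 0 (el i) && Nat.ble (el i) 30000 &&
    Nat.blt (ixh i) 233 && Nat.blt (ixf i) 233 &&
    Nat.beq (el (ixh i) * el i) (el (ixf i) * el (ixf i)) && Nat.ble (el (ixh i)) (el (ixf i)) &&
    (Nat.beq i 0 || Nat.blt (el (i - 1)) (el i))

set_option maxRecDepth 100000 in
theorem tableOK : allN tabOK 233 = true := by
  decide +kernel

/-! ### Soundness -/

theorem dig_eq (V i : ℕ) : dig V i = V / 2 ^ (64 * i) % 2 ^ 64 := by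
  unfold dig
  rw [Nat.shiftRight_eq_div_pow]
  norm_num

theorem bp_eq (i : ℕ) : bp i = 2 ^ (64 * i) := by
  unfold bp
  rw [Nat.shiftLeft_eq, one_mul]

theorem digits_lt (f : ℕ → ℕ) (m : ℕ) (hf : ∀ i < m, f i < 2 ^ 64) :
    ∑ i ∈ range m, f i * bp i < 2 ^ (64 * m) := by
  induction m with
  | zero => simp
  | succ m ih =>
    rw [Finset.sum_range_succ, bp_eq]
    have h1 := ih (fun i hi => hf i (by omega))
    have h2 := hf m (by omega)
    have h3 : (f m + 1) * 2 ^ (64 * m) ≤ 2 ^ 64 * 2 ^ (64 * m) :=
      Nat.mul_le_mul_right _ h2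
    have h4 : 2 ^ (64 * (m + 1)) = 2 ^ 64 * 2 ^ (64 * m) := by
      rw [← pow_add]
      congr 1
      ring
    rw [h4]
    have h5 : (f m + 1) * 2 ^ (64 * m) = f m * 2 ^ (64 * m) + 2 ^ (64 * m) := by ring
    omega

theorem dig_sum (f : ℕ → ℕ) (m : ℕ) (hf : ∀ i < m, f i < 2 ^ 64) (j : ℕ) (hj : j < m) :
    dig (∑ i ∈ range m, f i * bp i) j = f j := by
  induction m with
  | zero => omega
  | succ m ih =>
    rw [Finset.sum_range_succ]
    have hf' : ∀ i < m, f i < 2 ^ 64 := fun i hi => hf i (by omega)
    rcases Nat.lt_succ_iff_lt_or_eq.1 hj with h | h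
    · rw [← ih hf' h, dig_eq, dig_eq, bp_eq]
      set S := ∑ i ∈ range m, f i * bp i with hS
      have e1 : f m * 2 ^ (64 * m) =
          2 ^ (64 * j) * (2 ^ 64 * (f m * 2 ^ (64 * (m - j - 1)))) := by
        have : 64 * m = 64 * j + (64 + 64 * (m - j - 1)) := by omega
        rw [this, pow_add, pow_add]
        ring
      rw [e1, Nat.add_mul_div_left _ _ (by positivity), Nat.add_mul_mod_self_left]
    · subst h
      have h1 := digits_lt f j hf'
      rw [dig_eq, bp_eq, Nat.add_mul_div_right _ _ (by positivity), Nat.div_eq_of_lt h1,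
        Nat.zero_add, Nat.mod_eq_of_lt (hf j (by omega))]

/-- coefficient of an entry list at an index -/
def coefY : List ℕ → ℕ → ℕ
  | [], _ => 0
  | e :: l, t => (e >>> 24) * ((if e % 256 = t then 1 else 0) +
      (if (e >>> 8) % 256 = t then 1 else 0) + (if (e >>> 16) % 256 = t then 1 else 0)) +
      coefY l t

theorem entOK_iff {e : ℕ} (h : entOK e = true) :
    e % 256 < 233 ∧ (e >>> 8) % 256 < 233 ∧ (e >>> 16) % 256 < 233 ∧
      el (e % 256) * el ((e >>> 16) % 256) = el ((e >>> 8) % 256) * el ((e >>> 8) % 256) ∧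
      el (e % 256) < el ((e >>> 8) % 256) := by
  unfold entOK at h
  simp only [Bool.and_eq_true, Nat.blt_eq, Nat.beq_eq] at h
  exact ⟨h.1.1.1.1, h.1.1.1.2, h.1.1.2, h.1.2, h.2⟩

theorem sum_coefY (z : ℕ → ℕ) (l : List ℕ) (h : allOK l = true) :
    ∑ i ∈ range 233, coefY l i * z i = sumV z l := by
  induction l with
  | nil => simp [coefY, sumV]
  | cons e l ih =>
    simp only [allOK, Bool.and_eq_true] at h
    obtain ⟨h1, h2, h3, -, -⟩ := entOK_iff h.1
    have ih' := ih h.2
    have key : ∀ t < 233, ∀ c : ℕ, ∑ i ∈ range 233, (c * if t = i then 1 else 0) * z i =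
        c * z t := by
      intro t ht c
      rw [Finset.sum_eq_single t]
      · simp
      · intro b _ hb
        rw [if_neg (Ne.symm hb)]
        simp
      · intro hn
        exact absurd (Finset.mem_range.2 ht) hn
    simp only [coefY, sumV, entV, add_mul, mul_add, Finset.sum_add_distrib, ih']
    rw [key _ h1, key _ h2, key _ h3]

theorem sumV_one (l : List ℕ) : sumV (fun _ => 1) l = 3 * sumY l := by
  induction l with
  | nil => rfl
  | cons e l ih =>
    simp only [sumV, sumY, entV, ih]
    ring

/-- the constraints: `x` takes the values 0, 1 and is not 0 on a whole progression -/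
def Feas (x : ℕ → ℕ) : Prop :=
  (∀ i, x i ≤ 1) ∧ ∀ i j k, i < 233 → j < 233 → k < 233 → el i * el k = el j * el j →
    el i < el j → 1 ≤ x i + x j + x k

theorem sumY_le {x : ℕ → ℕ} (hx : Feas x) (l : List ℕ) (h : allOK l = true) :
    sumY l ≤ sumV x l := by
  induction l with
  | nil => simp [sumY, sumV]
  | cons e l ih =>
    simp only [allOK, Bool.and_eq_true] at h
    obtain ⟨h1, h2, h3, h4, h5⟩ := entOK_iff h.1
    have := hx.2 _ _ _ h1 h2 h3 h4 h5
    simp only [sumV, sumY, entV]
    have h6 := Nat.mul_le_mul_left (e >>> 24) this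
    have h7 := ih h.2
    omega

theorem leaf_sound {V T Z n D m0 m1 : ℕ} (load : ℕ → ℕ)
    (hV : V = ∑ i ∈ range 233, load i * bp i) (hT : ∑ i ∈ range 233, load i ≤ T)
    (h : leafOK V T Z n D m0 m1 = true) {x : ℕ → ℕ} (hx : Feas x)
    (h0 : ∀ i, m0.testBit i = true → x i = 0) (h1 : ∀ i, m1.testBit i = true → x i = 1) :
    Z + ∑ i ∈ range 233, load i * x i ≤ ∑ i ∈ range 233, pw i * x i := by
  unfold leafOK at h
  set l := unpack n D with hl
  simp only [Bool.and_eq_true, Nat.blt_eq] at h
  obtain ⟨⟨hok, hlt⟩, hcmp⟩ := h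
  unfold leafCmp at hcmp
  rw [Nat.ble_eq, sumN_eq, sumN_eq] at hcmp
  set load' : ℕ → ℕ := fun i => load i + 10000000 * coefY l i with hload'
  have hs : ∀ z : ℕ → ℕ, ∑ i ∈ range 233, load' i * z i =
      ∑ i ∈ range 233, load i * z i + 10000000 * sumV z l := by
    intro z
    simp only [hload', add_mul, Finset.sum_add_distrib]
    rw [← sum_coefY z l hok, Finset.mul_sum]
    have : ∀ i, 10000000 * coefY l i * z i = 10000000 * (coefY l i * z i) := fun i => by ring
    simp only [this]
  have hV' : V + 10000000 * sumV bp l = ∑ i ∈ range 233, load' i * bp i := by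
    rw [hs bp, hV]
  have htot : ∑ i ∈ range 233, load' i < 18446744073709551616 := by
    have := hs (fun _ => 1)
    simp only [mul_one] at this
    rw [this, sumV_one]
    omega
  have hdig : ∀ i < 233, dig (V + 10000000 * sumV bp l) i = load' i := by
    intro i hi
    rw [hV']
    apply dig_sum load' 233 _ i hi
    intro j hj
    have : load' j ≤ ∑ i ∈ range 233, load' i :=
      Finset.single_le_sum (f := load') (fun _ _ => Nat.zero_le _) (Finset.mem_range.2 hj)
    norm_num
    omega
  have hper : ∀ i ∈ range 233, load' i * x i + gain (V + 10000000 * sumV bp l) m1 i ≤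
      pw i * x i + pen (V + 10000000 * sumV bp l) m0 i := by
    intro i hi
    have hi' := Finset.mem_range.1 hi
    unfold gain pen
    rw [hdig i hi']
    have hxi := hx.1 i
    have hx01 : x i = 0 ∨ x i = 1 := by omega
    rcases hx01 with e | e
    · have e1 : m1.testBit i = false := by
        by_contra hc
        rw [Bool.not_eq_false] at hc
        have := h1 i hc
        omega
      rw [e1, e]
      simp
    · have e0 : m0.testBit i = false := by
        by_contra hc
        rw [Bool.not_eq_false] at hc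
        have := h0 i hc
        omega
      rw [e0, e]
      simp only [cond_false, mul_one]
      cases m1.testBit i
      · simp only [cond_false]
        omega
      · simp only [cond_true]
        omega
  have hsum := Finset.sum_le_sum hper
  rw [Finset.sum_add_distrib, Finset.sum_add_distrib, hs x] at hsum
  have hY := sumY_le hx l hok
  omega

theorem check_sound {V T Z : ℕ} (load : ℕ → ℕ)
    (hV : V = ∑ i ∈ range 233, load i * bp i) (hT : ∑ i ∈ range 233, load i ≤ T)
    {x : ℕ → ℕ} (hx : Feas x) (c : Cert) :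
    ∀ m0 m1 : ℕ, c.check V T Z m0 m1 = true →
    (∀ i, m0.testBit i = true → x i = 0) → (∀ i, m1.testBit i = true → x i = 1) →
    Z + ∑ i ∈ range 233, load i * x i ≤ ∑ i ∈ range 233, pw i * x i := by
  induction c with
  | leaf n D =>
    intro m0 m1 h h0 h1
    exact leaf_sound load hV hT h hx h0 h1
  | node i c0 c1 ih0 ih1 =>
    intro m0 m1 h h0 h1
    simp only [Cert.check, Bool.and_eq_true] at h
    have hxi := hx.1 i
    have hx01 : x i = 0 ∨ x i = 1 := by omega
    rcases hx01 with e | e
    · apply ih0 _ _ h.1 _ h1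
      intro j hj
      rw [Nat.testBit_or, Bool.or_eq_true] at hj
      rcases hj with hj | hj
      · exact h0 j hj
      · rw [Nat.one_shiftLeft, Nat.testBit_two_pow] at hj
        simp only [decide_eq_true_eq] at hj
        rw [← hj, e]
    · apply ih1 _ _ h.2 h0
      intro j hj
      rw [Nat.testBit_or, Bool.or_eq_true] at hj
      rcases hj with hj | hj
      · exact h1 j hj
      · rw [Nat.one_shiftLeft, Nat.testBit_two_pow] at hj
        simp only [decide_eq_true_eq] at hj
        rw [← hj, e]

/-- loads of the linear form -/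
def nload (A B t : ℕ) : ℕ :=
  ∑ j ∈ range 233, (LL / el j) *
    (A * (if ixh j = t then 1 else 0) + B * (if ixf j = t then 1 else 0))

theorem tab {i : ℕ} (hi : i < 233) : el i * (LL / el i) = LL ∧ 0 < el i ∧ el i ≤ 30000 ∧
    ixh i < 233 ∧ ixf i < 233 ∧ el (ixh i) * el i = el (ixf i) * el (ixf i) ∧
    el (ixh i) ≤ el (ixf i) ∧ (i = 0 ∨ el (i - 1) < el i) := by
  have h := (allN_iff _ _).1 tableOK i hi
  unfold tabOK at h
  simp only [Bool.and_eq_true, Bool.or_eq_true, Nat.blt_eq, Nat.beq_eq, Nat.ble_eq] at h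
  exact ⟨h.1.1.1.1.1.1.1, h.1.1.1.1.1.1.2, h.1.1.1.1.1.2, h.1.1.1.1.2, h.1.1.1.2, h.1.1.2, h.1.2,
    h.2⟩

theorem sum_nload (A B : ℕ) (z : ℕ → ℕ) :
    ∑ t ∈ range 233, nload A B t * z t = ∑ j ∈ range 233, loadForm A B z j := by
  unfold nload loadForm
  simp only [Finset.sum_mul]
  rw [Finset.sum_comm]
  apply Finset.sum_congr rfl
  intro j hj
  have hj' := Finset.mem_range.1 hj
  obtain ⟨-, -, -, h1, h2, -⟩ := tab hj'
  have key : ∀ t < 233, ∀ c : ℕ, ∑ i ∈ range 233, (c * if t = i then 1 else 0) * z i =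
      c * z t := by
    intro t ht c
    rw [Finset.sum_eq_single t]
    · simp
    · intro b _ hb
      rw [if_neg (Ne.symm hb)]
      simp
    · intro hn
      exact absurd (Finset.mem_range.2 ht) hn
  have e : ∀ i, (LL / el j) * (A * (if ixh j = i then 1 else 0) + B * (if ixf j = i then 1 else 0))
      * z i = (LL / el j) * ((A * (if ixh j = i then 1 else 0)) * z i +
        (B * (if ixf j = i then 1 else 0)) * z i) := fun i => by ring
  simp only [e]
  rw [← Finset.mul_sum, Finset.sum_add_distrib, key _ h1, key _ h2]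

/-- one vertex inequality -/
theorem vertex_ineq {A B V T Z : ℕ} {c : Cert} (hV : V = sumN (loadForm A B bp) 233)
    (hT : (A + B) * 18883901505967 ≤ T) (hc : c.check V T Z 0 0 = true) {x : ℕ → ℕ}
    (hx : Feas x) :
    Z + ∑ j ∈ range 233, (LL / el j) * (A * x (ixh j) + B * x (ixf j)) ≤
      ∑ i ∈ range 233, pw i * x i := by
  have h1 := sum_nload A B bp
  have h2 := sum_nload A B (fun _ => 1)
  have h3 := sum_nload A B x
  rw [sumN_eq, ← h1] at hV
  have h4 : ∑ i ∈ range 233, nload A B i ≤ T := by
    simp only [mul_one] at h2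
    rw [h2]
    unfold loadForm
    simp only [mul_one]
    rw [← Finset.sum_mul]
    have := tableS
    rw [sumN_eq] at this
    rw [this]
    linarith
  have := check_sound (nload A B) hV h4 hx c 0 0 hc (by simp) (by simp)
  rw [h3] at this
  exact this

end Pool.Agent.GPF
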