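import Mathlib.Topology.Order.Basic
import Mathlib.Topology.Instances.Real.Lemmas
import Mathlib.Data.Set.Card
import Mathlib.Order.Interval.Set.Nat
import Mathlib.Order.Filter.AtTopBot.Basic

/-!
Definitions for the comparison of densities of sets without three-term
geometric progressions.
-/

namespace Pool.Agent.GPF

/-- `A` contains no three-term geometric progression `a, a k, a k ^ 2` with rational ratio
`k > 1`. -/
def GPFree (A : Set ℕ) : Prop :=
  ¬ ∃ (a : ℕ) (k : ℚ), 1 < k ∧ a ∈ A ∧ (∃ b ∈ A, (b : ℚ) = a * k) ∧
    (∃ c ∈ A, (c : ℚ) = a * k ^ 2)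

/-- `A` contains no three-term geometric progression `a, a k, a k ^ 2` with integer ratio
`k > 1`. -/
def IntGPFree (A : Set ℕ) : Prop :=
  ¬ ∃ (a k : ℕ), 1 < k ∧ a ∈ A ∧ a * k ∈ A ∧ a * k ^ 2 ∈ A

/-- `A` has asymptotic density `d`: `|A ∩ [1, N]| / N` tends to `d`. -/
def HasDensity (A : Set ℕ) (d : ℝ) : Prop :=
  Filter.Tendsto (fun N : ℕ => ((A ∩ Set.Icc 1 N).ncard : ℝ) / N) Filter.atTop (nhds d)

/-- The supremum of the asymptotic densities of sets of positive integers that have an
asymptotic density and contain no three-term geometric progression with rational ratio. -/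
noncomputable def alpha : ℝ :=
  sSup {d : ℝ | ∃ A : Set ℕ, (∀ n ∈ A, 0 < n) ∧ GPFree A ∧ HasDensity A d}

/-- The supremum of the asymptotic densities of sets of positive integers that have an
asymptotic density and contain no three-term geometric progression with integer ratio. -/
noncomputable def beta : ℝ :=
  sSup {d : ℝ | ∃ A : Set ℕ, (∀ n ∈ A, 0 < n) ∧ IntGPFree A ∧ HasDensity A d}

end Pool.Agent.GPF
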