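import Mathlib
import Pool.Agent.Lib.GPF.Defs
import Pool.Agent.Lib.GPF.Cert

/-!
The block inequality for sets without rational progressions.
-/

open Finset

namespace Pool.Agent.GPF

theorem GPFree.elim {A : Set ℕ} (hA : GPFree A) {a b c : ℕ} (ha : a ∈ A) (hb : b ∈ A)
    (hc : c ∈ A) (h0 : 0 < a) (hab : a < b) (h : a * c = b * b) : False := by
  apply hA
  have h0' : (0 : ℚ) < a := by exact_mod_cast h0
  have hab' : (a : ℚ) < b := by exact_mod_cast hab
  have h' : (a : ℚ) * c = b * b := by exact_mod_cast h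
  refine ⟨a, (b : ℚ) / a, ?_, ha, ⟨b, hb, ?_⟩, ⟨c, hc, ?_⟩⟩
  · rw [lt_div_iff₀ h0']
    linarith
  · field_simp
  · field_simp
    linarith

open Classical in
/-- indicator of the complement -/
noncomputable def rho (A : Set ℕ) (n : ℕ) : ℕ := if n ∈ A then 0 else 1

theorem rho_le_one (A : Set ℕ) (n : ℕ) : rho A n ≤ 1 := by
  unfold rho
  split_ifs <;> omega

theorem rho_gp {A : Set ℕ} (hA : GPFree A) {a b c : ℕ} (h0 : 0 < a) (hab : a < b)
    (h : a * c = b * b) : 1 ≤ rho A a + rho A b + rho A c := by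
  unfold rho
  split_ifs with h1 h2 h3
  · exact (hA.elim h1 h2 h3 h0 hab h).elim
  all_goals omega

theorem feas_rho {A : Set ℕ} (hA : GPFree A) {t : ℕ} (ht : 0 < t) :
    Feas (fun i => rho A (el i * t)) := by
  refine ⟨fun i => rho_le_one _ _, fun i j k hi hj hk h hlt => ?_⟩
  apply rho_gp hA
  · exact Nat.mul_pos (tab hi).2.1 ht
  · exact Nat.mul_lt_mul_of_pos_right hlt ht
  · calc el i * t * (el k * t) = (el i * el k) * (t * t) := by ring
      _ = _ := by rw [h]; ring

/-- total weight -/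
noncomputable def WF : ℝ := ∑ i ∈ range 233, 1 / (el i : ℝ)

/-- block sum -/
noncomputable def RR (A : Set ℕ) (t : ℕ) : ℝ := ∑ i ∈ range 233, (rho A (el i * t) : ℝ) / el i

/-- first cross sum -/
noncomputable def C0 (A : Set ℕ) (t : ℕ) : ℝ :=
  ∑ i ∈ range 233, (rho A (el (ixh i) * t) : ℝ) / el i

/-- second cross sum -/
noncomputable def C1 (A : Set ℕ) (t : ℕ) : ℝ :=
  ∑ i ∈ range 233, (rho A (el (ixf i) * t) : ℝ) / el i

theorem cast_LL {i : ℕ} (hi : i < 233) : ((LL / el i : ℕ) : ℝ) = LL / el i := by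
  obtain ⟨h1, h2, -⟩ := tab hi
  have h2' : (0 : ℝ) < el i := by exact_mod_cast h2
  rw [eq_div_iff h2'.ne', mul_comm]
  exact_mod_cast h1

theorem LL_pos : (0 : ℝ) < LL := by unfold LL; norm_num

theorem WF_eq : WF = 18883901505967 / 5038848000000 := by
  have h1 := tableS
  rw [sumN_eq] at h1
  have h2 : WF * LL = 18883901505967 := by
    unfold WF
    rw [Finset.sum_mul]
    have h3 : ∀ i ∈ range 233, 1 / (el i : ℝ) * LL = ((LL / el i : ℕ) : ℝ) := by
      intro i hi
      rw [cast_LL (Finset.mem_range.1 hi)]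
      ring
    rw [Finset.sum_congr rfl h3]
    exact_mod_cast h1
  rw [eq_div_iff (by norm_num)]
  have h4 : ((LL : ℕ) : ℝ) = 5038848000000 := by unfold LL; norm_num
  rw [h4] at h2
  exact h2

theorem C1_nonneg (A : Set ℕ) (t : ℕ) : 0 ≤ C1 A t :=
  Finset.sum_nonneg (fun _ _ => by positivity)

theorem C0_nonneg (A : Set ℕ) (t : ℕ) : 0 ≤ C0 A t :=
  Finset.sum_nonneg (fun _ _ => by positivity)

theorem C1_le (A : Set ℕ) (t : ℕ) : C1 A t ≤ 15 / 4 := by
  have h1 : C1 A t ≤ WF := by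
    unfold C1 WF
    apply Finset.sum_le_sum
    intro i hi
    have h2 : (0 : ℝ) < el i := by exact_mod_cast (tab (Finset.mem_range.1 hi)).2.1
    apply div_le_div_of_nonneg_right _ h2.le
    exact_mod_cast rho_le_one _ _
  rw [WF_eq] at h1
  refine h1.trans ?_
  norm_num

theorem vertex_real {A : Set ℕ} (hA : GPFree A) {t : ℕ} (ht : 0 < t) {a B V T Z : ℕ} {c : Cert}
    (hV : V = sumN (loadForm a B bp) 233) (hT : (a + B) * 18883901505967 ≤ T)
    (hc : c.check V T Z 0 0 = true) :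
    (Z : ℝ) / (10000 * LL) ≤ RR A t - a / 10000 * C0 A t - B / 10000 * C1 A t := by
  have h := vertex_ineq hV hT hc (feas_rho hA ht)
  have h' : ((Z + ∑ j ∈ range 233, (LL / el j) * (a * rho A (el (ixh j) * t) +
      B * rho A (el (ixf j) * t)) : ℕ) : ℝ) ≤ ((∑ i ∈ range 233, pw i * rho A (el i * t) : ℕ) : ℝ) := by
    exact_mod_cast h
  have hL := LL_pos
  have e1 : ((∑ i ∈ range 233, pw i * rho A (el i * t) : ℕ) : ℝ) = 10000 * LL * RR A t := by
    unfold RR
    rw [Nat.cast_sum, Finset.mul_sum]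
    apply Finset.sum_congr rfl
    intro i hi
    unfold pw
    rw [Nat.cast_mul, Nat.cast_mul, cast_LL (Finset.mem_range.1 hi)]
    push_cast
    ring
  have e2 : ((Z + ∑ j ∈ range 233, (LL / el j) * (a * rho A (el (ixh j) * t) +
      B * rho A (el (ixf j) * t)) : ℕ) : ℝ) = Z + LL * (a * C0 A t + B * C1 A t) := by
    unfold C0 C1
    rw [Nat.cast_add, Nat.cast_sum, Finset.mul_sum, Finset.mul_sum, ← Finset.sum_add_distrib,
      Finset.mul_sum, add_right_inj]
    apply Finset.sum_congr rfl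
    intro i hi
    rw [Nat.cast_mul, cast_LL (Finset.mem_range.1 hi)]
    push_cast
    ring
  rw [e1, e2] at h'
  rw [div_le_iff₀ (mul_pos (by norm_num) hL)]
  have e3 : (RR A t - a / 10000 * C0 A t - B / 10000 * C1 A t) * (10000 * LL) =
      10000 * LL * RR A t - LL * (a * C0 A t + B * C1 A t) := by ring
  rw [e3]
  linarith

theorem quartic (b b0 : ℝ) (hb : 0 ≤ b) (hb0 : 0 ≤ b0) : 4 * b0 ^ 3 * b - 3 * b0 ^ 4 ≤ b ^ 4 := by
  have h : b ^ 4 - (4 * b0 ^ 3 * b - 3 * b0 ^ 4) = (b - b0) ^ 2 * (b ^ 2 + 2 * b0 * b + 3 * b0 ^ 2) := by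
    ring
  have h2 : 0 ≤ (b - b0) ^ 2 * (b ^ 2 + 2 * b0 * b + 3 * b0 ^ 2) := by positivity
  linarith

theorem piecewise_real {y c1 b : ℝ} (hb : 0 ≤ b) (hC' : c1 ≤ 15 / 4)
    (v0 : 22987 / 25000 ≤ y)
    (v1 : 45903 / 50000 ≤ y - 3 / 25 * c1)
    (v2 : 90331 / 100000 ≤ y - 9 / 50 * c1)
    (v3 : 86577 / 100000 ≤ y - 1 / 4 * c1)
    (v4 : 17677 / 25000 ≤ y - 7 / 20 * c1) :
    91998 / 100000 - (11 / 10000 + 33 / 2 * b ^ 4) ≤ y - b * c1 := by
  rcases le_total b (12 / 100) with h1 | h1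
  · have q := quartic b (56 / 1000) hb (by norm_num)
    have p1 := mul_le_mul_of_nonneg_left v0 (by linarith : 0 ≤ 12 / 100 - b)
    have p2 := mul_le_mul_of_nonneg_left v1 hb
    nlinarith
  rcases le_total b (18 / 100) with h2 | h2
  · have q := quartic b (155 / 1000) hb (by norm_num)
    have p1 := mul_le_mul_of_nonneg_left v1 (by linarith : 0 ≤ 18 / 100 - b)
    have p2 := mul_le_mul_of_nonneg_left v2 (by linarith : 0 ≤ b - 12 / 100)
    nlinarith
  rcases le_total b (25 / 100) with h3 | h3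
  · have q := quartic b (201 / 1000) hb (by norm_num)
    have p1 := mul_le_mul_of_nonneg_left v2 (by linarith : 0 ≤ 25 / 100 - b)
    have p2 := mul_le_mul_of_nonneg_left v3 (by linarith : 0 ≤ b - 18 / 100)
    nlinarith
  rcases le_total b (35 / 100) with h4 | h4
  · have q := quartic b (2886 / 10000) hb (by norm_num)
    have p1 := mul_le_mul_of_nonneg_left v3 (by linarith : 0 ≤ 35 / 100 - b)
    have p2 := mul_le_mul_of_nonneg_left v4 (by linarith : 0 ≤ b - 25 / 100)
    nlinarith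
  · have q := quartic b (385 / 1000) hb (by norm_num)
    have p1 := mul_le_mul_of_nonneg_left hC' (by linarith : 0 ≤ b - 35 / 100)
    nlinarith

/-- The block inequality. -/
theorem block_ineq {A : Set ℕ} (hA : GPFree A) {t : ℕ} (ht : 0 < t) {b : ℝ} (hb : 0 ≤ b) :
    91998 / 100000 - (11 / 10000 + 33 / 2 * b ^ 4) ≤
      RR A t - 522 / 10000 * C0 A t - b * C1 A t := by
  obtain ⟨hV0, hV1, hV2, hV3, hV4⟩ := tableV
  have v0 := vertex_real hA ht hV0 (by norm_num) check0
  have v1 := vertex_real hA ht hV1 (by norm_num) check1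
  have v2 := vertex_real hA ht hV2 (by norm_num) check2
  have v3 := vertex_real hA ht hV3 (by norm_num) check3
  have v4 := vertex_real hA ht hV4 (by norm_num) check4
  have hL : ((LL : ℕ) : ℝ) = 5038848000000 := by unfold LL; norm_num
  rw [hL] at v0 v1 v2 v3 v4
  have hC := C1_nonneg A t
  have hC' := C1_le A t
  generalize RR A t = y at *
  generalize C0 A t = c0 at *
  generalize C1 A t = c1 at *
  clear hV0 hV1 hV2 hV3 hV4 hL
  norm_num at v0 v1 v2 v3 v4
  apply piecewise_real hb hC'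
  · linarith
  · linarith
  · linarith
  · linarith
  · linarith

end Pool.Agent.GPF
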