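import Mathlib
import Pool.Agent.Lib.GPF.Defs

/-!
Counting functions, natural densities and logarithmic sums.
-/

open Filter Finset Topology

namespace Pool.Agent.GPF

open Classical in
/-- counting function on `[1, N]` -/
noncomputable def cnt (A : Set ℕ) (N : ℕ) : ℕ := #{n ∈ Icc 1 N | n ∈ A}

open Classical in
/-- logarithmic sum on `[1, N]` -/
noncomputable def lsum (A : Set ℕ) (N : ℕ) : ℝ := ∑ n ∈ Icc 1 N with n ∈ A, (1 : ℝ) / n

/-- harmonic sum -/
noncomputable def harm (N : ℕ) : ℝ := ∑ n ∈ Icc 1 N, (1 : ℝ) / n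

theorem ncard_eq_cnt (A : Set ℕ) (N : ℕ) : (A ∩ Set.Icc 1 N).ncard = cnt A N := by
  classical
  unfold cnt
  rw [← Set.ncard_coe_finset]
  congr 1
  ext n
  simp only [Set.mem_inter_iff, Set.mem_Icc, Finset.coe_filter, Finset.mem_Icc, Set.mem_ofPred_eq]
  tauto

theorem hasDensity_iff (A : Set ℕ) (d : ℝ) :
    HasDensity A d ↔ Tendsto (fun N : ℕ => (cnt A N : ℝ) / N) atTop (𝓝 d) := by
  unfold HasDensity
  simp only [ncard_eq_cnt]

theorem cnt_le (A : Set ℕ) (N : ℕ) : cnt A N ≤ N := by
  classical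
  unfold cnt
  calc #{n ∈ Icc 1 N | n ∈ A} ≤ #(Icc 1 N) := card_filter_le _ _
    _ = N := by simp

theorem cnt_zero (A : Set ℕ) : cnt A 0 = 0 := by
  have := cnt_le A 0
  omega

theorem cnt_succ (A : Set ℕ) (N : ℕ) [Decidable (N + 1 ∈ A)] :
    cnt A (N + 1) = cnt A N + if N + 1 ∈ A then 1 else 0 := by
  classical
  unfold cnt
  rw [← Finset.insert_Icc_right_eq_Icc_add_one (by omega), Finset.filter_insert]
  split_ifs with h
  · rw [Finset.card_insert_of_notMem (by simp)]
  · simp

theorem lsum_succ (A : Set ℕ) (N : ℕ) [Decidable (N + 1 ∈ A)] :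
    lsum A (N + 1) = lsum A N + if N + 1 ∈ A then (1 : ℝ) / (N + 1 : ℕ) else 0 := by
  classical
  unfold lsum
  rw [← Finset.insert_Icc_right_eq_Icc_add_one (by omega), Finset.filter_insert]
  split_ifs with h
  · rw [Finset.sum_insert (by simp), add_comm]
  · simp

theorem lsum_zero (A : Set ℕ) : lsum A 0 = 0 := by
  classical
  unfold lsum
  simp

theorem harm_eq (N : ℕ) : harm N = ∑ k ∈ range N, (1 : ℝ) / ((k : ℝ) + 1) := by
  induction N with
  | zero => simp [harm]
  | succ n ih =>
    rw [Finset.sum_range_succ, ← ih]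
    unfold harm
    rw [← Finset.insert_Icc_right_eq_Icc_add_one (by omega), Finset.sum_insert (by simp)]
    push_cast
    ring

theorem harm_tendsto : Tendsto harm atTop atTop := by
  have h := Real.tendsto_sum_range_one_div_nat_succ_atTop
  refine h.congr (fun N => ?_)
  rw [harm_eq]

/-- Abel summation. -/
theorem lsum_eq (A : Set ℕ) (N : ℕ) :
    lsum A N = (cnt A N : ℝ) / N + ∑ k ∈ range N, ((cnt A k : ℝ) / k) * (1 / ((k : ℝ) + 1)) := by
  classical
  induction N with
  | zero => simp [lsum_zero, cnt_zero]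
  | succ n ih =>
    rw [lsum_succ, ih, Finset.sum_range_succ, cnt_succ]
    rcases Nat.eq_zero_or_pos n with h0 | h0
    · subst h0
      simp [cnt_zero]
    · have hn : (n : ℝ) ≠ 0 := by positivity
      have hn1 : (n : ℝ) + 1 ≠ 0 := by positivity
      split_ifs with h
      · push_cast
        field_simp
        ring
      · push_cast
        field_simp
        ring

/-- natural density implies logarithmic density -/
theorem lsum_tendsto {A : Set ℕ} {d : ℝ} (h : HasDensity A d) :
    Tendsto (fun N => lsum A N / harm N) atTop (𝓝 d) := by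
  rw [hasDensity_iff] at h
  set r : ℕ → ℝ := fun N => (cnt A N : ℝ) / N with hr
  have h1 : (fun k : ℕ => (r k - d) * (1 / ((k : ℝ) + 1))) =o[atTop]
      (fun k : ℕ => 1 / ((k : ℝ) + 1)) := by
    have h2 : (fun k : ℕ => r k - d) =o[atTop] (fun _ : ℕ => (1 : ℝ)) := by
      rw [Asymptotics.isLittleO_one_iff]
      simpa using h.sub_const d
    have := h2.mul_isBigO (Asymptotics.isBigO_refl (fun k : ℕ => 1 / ((k : ℝ) + 1)) atTop)
    simpa using this
  have h3 := h1.sum_range (fun k => by positivity) Real.tendsto_sum_range_one_div_nat_succ_atTop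
  have h4 : Tendsto (fun N => (∑ k ∈ range N, (r k - d) * (1 / ((k : ℝ) + 1))) / harm N)
      atTop (𝓝 0) := by
    have := h3.tendsto_div_nhds_zero
    refine this.congr (fun N => ?_)
    rw [harm_eq]
  have h5 : Tendsto (fun N => r N / harm N) atTop (𝓝 0) := by
    have := h.div_atTop harm_tendsto
    exact this
  have h6 : Tendsto (fun N => r N / harm N +
      (∑ k ∈ range N, (r k - d) * (1 / ((k : ℝ) + 1))) / harm N + d) atTop (𝓝 (0 + 0 + d)) :=
    (h5.add h4).add_const d
  rw [zero_add, zero_add] at h6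
  refine h6.congr' ?_
  filter_upwards [harm_tendsto.eventually_gt_atTop 0] with N hN
  have : lsum A N = r N + ∑ k ∈ range N, (r k - d) * (1 / ((k : ℝ) + 1)) + d * harm N := by
    rw [lsum_eq, harm_eq]
    simp only [sub_mul, Finset.sum_sub_distrib, Finset.mul_sum]
    ring
  rw [this]
  field_simp

theorem tendsto_div_const (f : ℕ → ℝ) (C : ℝ) (h : ∀ N : ℕ, 0 < N → |f N| ≤ C / N) :
    Tendsto f atTop (𝓝 0) := by
  refine squeeze_zero_norm' ?_ (tendsto_const_div_atTop_nhds_zero_nat C)
  filter_upwards [eventually_gt_atTop 0] with N hN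
  simpa using h N hN

theorem nat_div_tendsto (a : ℕ) (ha : 0 < a) :
    Tendsto (fun N : ℕ => ((N / a : ℕ) : ℝ) / N) atTop (𝓝 (1 / a)) := by
  rw [tendsto_iff_dist_tendsto_zero]
  refine tendsto_div_const _ 1 (fun N hN => ?_)
  have hN' : (0 : ℝ) < N := by exact_mod_cast hN
  have ha' : (0 : ℝ) < a := by exact_mod_cast ha
  have h1 : (N : ℝ) = a * ((N / a : ℕ) : ℝ) + ((N % a : ℕ) : ℝ) := by
    exact_mod_cast (Nat.div_add_mod N a).symm
  have h2 : ((N % a : ℕ) : ℝ) < a := by exact_mod_cast Nat.mod_lt N ha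
  have h3 : (0 : ℝ) ≤ ((N % a : ℕ) : ℝ) := Nat.cast_nonneg _
  have h4 : ((N / a : ℕ) : ℝ) / N - 1 / a = -(((N % a : ℕ) : ℝ) / a / N) := by
    have : ((N / a : ℕ) : ℝ) = (N - ((N % a : ℕ) : ℝ)) / a := by
      rw [eq_div_iff ha'.ne']
      linarith
    rw [this]
    field_simp
    ring
  rw [Real.dist_eq, h4, abs_neg, abs_abs, abs_of_nonneg (by positivity)]
  apply div_le_div_of_nonneg_right _ hN'.le
  rw [div_le_one ha']
  exact h2.le

theorem nat_div_atTop (a : ℕ) (ha : 0 < a) : Tendsto (fun N : ℕ => N / a) atTop atTop :=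
  Nat.tendsto_div_const_atTop ha.ne'

theorem cnt_div_tendsto {A : Set ℕ} {d : ℝ} (h : HasDensity A d) (a : ℕ) (ha : 0 < a) :
    Tendsto (fun N : ℕ => (cnt A (N / a) : ℝ) / N) atTop (𝓝 (d * (1 / a))) := by
  rw [hasDensity_iff] at h
  have h1 := (h.comp (nat_div_atTop a ha)).mul (nat_div_tendsto a ha)
  refine h1.congr' ?_
  filter_upwards [(nat_div_atTop a ha).eventually_gt_atTop 0] with N hN
  have : ((N / a : ℕ) : ℝ) ≠ 0 := by exact_mod_cast hN.ne'
  simp only [Function.comp]
  field_simp

/-- periodic sets have a density -/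
theorem hasDensity_periodic (A : Set ℕ) (a : ℕ) (ha : 0 < a)
    (hA : ∀ n, n + a ∈ A ↔ n ∈ A) (c : ℕ) (hc : cnt A a = c) :
    HasDensity A ((c : ℝ) / a) := by
  classical
  rw [hasDensity_iff]
  have hstep : ∀ N, cnt A (N + a) = cnt A N + c := by
    intro N
    induction N with
    | zero => rw [Nat.zero_add, hc, cnt_zero, Nat.zero_add]
    | succ n ih =>
      have e1 : n + 1 + a = (n + a) + 1 := by ring
      rw [e1, cnt_succ, ih, cnt_succ]
      have e2 : n + a + 1 ∈ A ↔ n + 1 ∈ A := by
        rw [← hA (n + 1), e1]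
      by_cases h : n + 1 ∈ A
      · rw [if_pos h, if_pos (e2.2 h)]
        ring
      · rw [if_neg h, if_neg (fun h' => h (e2.1 h'))]
        ring
  have hmul : ∀ q r, cnt A (a * q + r) = cnt A r + q * c := by
    intro q r
    induction q with
    | zero => simp
    | succ n ih =>
      have : a * (n + 1) + r = (a * n + r) + a := by ring
      rw [this, hstep, ih]
      ring
  have hN : ∀ N, cnt A N = cnt A (N % a) + (N / a) * c := by
    intro N
    conv_lhs => rw [← Nat.div_add_mod N a]
    rw [hmul]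
  have h1 : Tendsto (fun N : ℕ => (cnt A (N % a) : ℝ) / N) atTop (𝓝 0) := by
    refine tendsto_div_const _ a (fun N hN => ?_)
    rw [abs_of_nonneg (by positivity)]
    apply div_le_div_of_nonneg_right _ (Nat.cast_nonneg N)
    exact_mod_cast (cnt_le A _).trans (Nat.mod_lt N ha).le
  have h2 := h1.add ((nat_div_tendsto a ha).mul_const (c : ℝ))
  have e3 : (0 : ℝ) + 1 / a * c = c / a := by ring
  rw [e3] at h2
  refine h2.congr (fun N => ?_)
  rw [hN N]
  push_cast
  ring

/-- approximation from above -/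
theorem exists_density_of_approx (S : Set ℕ) (P : ℕ → Set ℕ)
    (hd : ∀ y, ∃ d, HasDensity (P y) d)
    (h1 : ∀ y N, cnt S N ≤ cnt (P y) N)
    (h2 : ∀ y N, 0 < y → (cnt (P y) N : ℝ) ≤ cnt S N + N / y) :
    ∃ d, HasDensity S d := by
  have hc : CauchySeq (fun N : ℕ => (cnt S N : ℝ) / N) := by
    rw [Metric.cauchySeq_iff']
    intro ε hε
    obtain ⟨y, hy⟩ := exists_nat_gt (4 / ε)
    have hy0 : (0 : ℝ) < y := lt_trans (by positivity) hy
    have hy1 : 0 < y := by exact_mod_cast hy0
    have hy2 : (1 : ℝ) / y < ε / 4 := by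
      rw [div_lt_iff₀ hy0]
      rw [div_lt_iff₀ hε] at hy
      linarith
    obtain ⟨d, hd⟩ := hd y
    rw [hasDensity_iff] at hd
    rw [Metric.tendsto_atTop] at hd
    obtain ⟨N0, hN0⟩ := hd (ε / 4) (by positivity)
    have key : ∀ n ≥ N0 + 1, |(cnt S n : ℝ) / n - d| < ε / 2 := by
      intro n hn
      have hn0 : (0 : ℝ) < n := by exact_mod_cast (by omega : 0 < n)
      have a1 := hN0 n (by omega)
      rw [Real.dist_eq, abs_lt] at a1
      have a2 : (cnt S n : ℝ) / n ≤ (cnt (P y) n : ℝ) / n := by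
        apply div_le_div_of_nonneg_right _ hn0.le
        exact_mod_cast h1 y n
      have a3 : (cnt (P y) n : ℝ) / n ≤ (cnt S n : ℝ) / n + 1 / y := by
        have := h2 y n hy1
        rw [div_add_div _ _ hn0.ne' hy0.ne', div_le_div_iff₀ hn0 (by positivity)]
        have e : ((cnt S n : ℝ) * y + n * 1) * n = ((cnt S n : ℝ) + n / y) * (n * y) := by
          field_simp
        rw [e]
        exact mul_le_mul_of_nonneg_right this (by positivity)
      rw [abs_lt]
      constructor <;> linarith [a1.1, a1.2]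
    refine ⟨N0 + 1, fun n hn => ?_⟩
    have k1 := key n hn
    have k2 := key (N0 + 1) le_rfl
    rw [Real.dist_eq]
    rw [abs_lt] at *
    constructor <;> linarith [k1.1, k1.2, k2.1, k2.2]
  obtain ⟨d, hd⟩ := cauchySeq_tendsto_of_complete hc
  exact ⟨d, (hasDensity_iff S d).2 hd⟩

theorem density_le_one {A : Set ℕ} {d : ℝ} (h : HasDensity A d) : d ≤ 1 := by
  rw [hasDensity_iff] at h
  refine le_of_tendsto' h (fun N => ?_)
  apply div_le_one_of_le₀ _ (Nat.cast_nonneg N)
  exact_mod_cast cnt_le A N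

theorem hasDensity_empty : HasDensity ∅ 0 := by
  unfold HasDensity
  simp

/-- the complement of a set of density `d` has density `1 - d` -/
theorem hasDensity_compl {A : Set ℕ} {d : ℝ} (h : HasDensity A d) : HasDensity Aᶜ (1 - d) := by
  classical
  rw [hasDensity_iff] at *
  have h1 : ∀ N, cnt Aᶜ N + cnt A N = N := by
    intro N
    unfold cnt
    have := Finset.card_filter_add_card_filter_not (s := Icc 1 N) (fun n => n ∈ A)
    simp only [Nat.card_Icc] at this
    simp only [Set.mem_compl_iff]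
    omega
  refine (h.const_sub 1).congr' ?_
  filter_upwards [eventually_gt_atTop 0] with N hN
  have hN' : (N : ℝ) ≠ 0 := by exact_mod_cast hN.ne'
  have h2 : ((cnt Aᶜ N : ℕ) : ℝ) = N - cnt A N := by
    have := h1 N
    rw [eq_sub_iff_add_eq]
    exact_mod_cast this
  rw [h2]
  field_simp

/-- dilating the range does not change the harmonic sum much -/
theorem harm_mul_div_tendsto (B : ℕ) (hB : 0 < B) :
    Tendsto (fun N => harm (B * N) / harm N) atTop (𝓝 1) := by
  have h1 : ∀ N : ℕ, 0 < N → |harm (B * N) / harm N - 1| ≤ B / harm N := by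
    intro N hN
    have hN' : (0 : ℝ) < N := by exact_mod_cast hN
    have hpos : 0 < harm N := by
      unfold harm
      apply Finset.sum_pos
      · intro i hi
        have : 0 < i := by
          rw [Finset.mem_Icc] at hi
          omega
        positivity
      · exact ⟨1, by simp; omega⟩
    have hle : N ≤ B * N := Nat.le_mul_of_pos_left N hB
    have hsub : Icc 1 N ⊆ Icc 1 (B * N) := Finset.Icc_subset_Icc_right hle
    have e1 : harm (B * N) - harm N = ∑ n ∈ Icc 1 (B * N) \ Icc 1 N, (1 : ℝ) / n := by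
      unfold harm
      rw [← Finset.sum_sdiff hsub]
      ring
    have e2 : ∑ n ∈ Icc 1 (B * N) \ Icc 1 N, (1 : ℝ) / n ≤ B := by
      calc ∑ n ∈ Icc 1 (B * N) \ Icc 1 N, (1 : ℝ) / n
          ≤ ∑ n ∈ Icc 1 (B * N) \ Icc 1 N, (1 : ℝ) / N := by
            apply Finset.sum_le_sum
            intro i hi
            rw [Finset.mem_sdiff, Finset.mem_Icc, Finset.mem_Icc] at hi
            apply one_div_le_one_div_of_le hN'
            have : N ≤ i := by omega
            exact_mod_cast this
        _ = ((#(Icc 1 (B * N) \ Icc 1 N) : ℕ) : ℝ) * (1 / N) := by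
            rw [Finset.sum_const, nsmul_eq_mul]
        _ ≤ ((B * N : ℕ) : ℝ) * (1 / N) := by
            apply mul_le_mul_of_nonneg_right _ (by positivity)
            have : #(Icc 1 (B * N) \ Icc 1 N) ≤ B * N := by
              calc #(Icc 1 (B * N) \ Icc 1 N) ≤ #(Icc 1 (B * N)) :=
                    Finset.card_le_card Finset.sdiff_subset
                _ = B * N := by simp
            exact_mod_cast this
        _ = B := by
            push_cast
            field_simp
    have e3 : 0 ≤ ∑ n ∈ Icc 1 (B * N) \ Icc 1 N, (1 : ℝ) / n :=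
      Finset.sum_nonneg (fun i _ => by positivity)
    have e4 : harm (B * N) / harm N - 1 = (harm (B * N) - harm N) / harm N := by
      field_simp
    rw [e4, e1, abs_of_nonneg (by positivity)]
    exact div_le_div_of_nonneg_right e2 hpos.le
  rw [tendsto_iff_dist_tendsto_zero]
  have h2 : Tendsto (fun N => (B : ℝ) / harm N) atTop (𝓝 0) :=
    harm_tendsto.const_div_atTop (B : ℝ)
  refine squeeze_zero' (Eventually.of_forall fun _ => dist_nonneg) ?_ h2
  filter_upwards [eventually_gt_atTop 0] with N hN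
  rw [Real.dist_eq]
  exact h1 N hN

end Pool.Agent.GPF
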