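import Mathlib
import Pool.Agent.Lib.GPF.Cert

/-!
The list of primes between 7 and 1999 and numerical facts about it.
-/

open Finset

namespace Pool.Agent.GPF

/-- the primes between 7 and 1999 -/
def QL : List ℕ :=
  [7, 11, 13, 17, 19, 23, 29, 31, 37, 41, 43, 47, 53, 59, 61, 67, 71, 73, 79, 83, 89, 97,
   101, 103, 107, 109, 113, 127, 131, 137, 139, 149, 151, 157, 163, 167, 173, 179, 181,
   191, 193, 197, 199, 211, 223, 227, 229, 233, 239, 241, 251, 257, 263, 269, 271, 277,
   281, 283, 293, 307, 311, 313, 317, 331, 337, 347, 349, 353, 359, 367, 373, 379, 383,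
   389, 397, 401, 409, 419, 421, 431, 433, 439, 443, 449, 457, 461, 463, 467, 479, 487,
   491, 499, 503, 509, 521, 523, 541, 547, 557, 563, 569, 571, 577, 587, 593, 599, 601,
   607, 613, 617, 619, 631, 641, 643, 647, 653, 659, 661, 673, 677, 683, 691, 701, 709,
   719, 727, 733, 739, 743, 751, 757, 761, 769, 773, 787, 797, 809, 811, 821, 823, 827,
   829, 839, 853, 857, 859, 863, 877, 881, 883, 887, 907, 911, 919, 929, 937, 941, 947,
   953, 967, 971, 977, 983, 991, 997, 1009, 1013, 1019, 1021, 1031, 1033, 1039, 1049,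
   1051, 1061, 1063, 1069, 1087, 1091, 1093, 1097, 1103, 1109, 1117, 1123, 1129, 1151,
   1153, 1163, 1171, 1181, 1187, 1193, 1201, 1213, 1217, 1223, 1229, 1231, 1237, 1249,
   1259, 1277, 1279, 1283, 1289, 1291, 1297, 1301, 1303, 1307, 1319, 1321, 1327, 1361,
   1367, 1373, 1381, 1399, 1409, 1423, 1427, 1429, 1433, 1439, 1447, 1451, 1453, 1459,
   1471, 1481, 1483, 1487, 1489, 1493, 1499, 1511, 1523, 1531, 1543, 1549, 1553, 1559,
   1567, 1571, 1579, 1583, 1597, 1601, 1607, 1609, 1613, 1619, 1621, 1627, 1637, 1657,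
   1663, 1667, 1669, 1693, 1697, 1699, 1709, 1721, 1723, 1733, 1741, 1747, 1753, 1759,
   1777, 1783, 1787, 1789, 1801, 1811, 1823, 1831, 1847, 1861, 1867, 1871, 1873, 1877,
   1879, 1889, 1901, 1907, 1913, 1931, 1933, 1949, 1951, 1973, 1979, 1987, 1993, 1997,
   1999]

/-- scale -/
def DD : ℕ := 1000000000000000

/-- scaled moment bounds -/
structure MS where
  /-- first -/
  m1 : ℕ
  /-- second -/
  m2 : ℕ
  /-- third -/
  m3 : ℕ
  /-- fourth -/
  m4 : ℕ

/-- one step of the recursion for the moments -/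
def mstep (q : ℕ) (s : MS) : MS where
  m1 := s.m1 + (s.m1 + DD) / q ^ 2 + 1
  m2 := s.m2 + ((2 * q + 1) * s.m2 + 2 * (q + 1) * s.m1 + DD) / q ^ 3 + 1
  m3 := s.m3 + (((q + 1) ^ 3 - q ^ 3) * s.m3 + 3 * (q + 1) ^ 2 * s.m2 + 3 * (q + 1) * s.m1 + DD) /
    q ^ 4 + 1
  m4 := s.m4 + (((q + 1) ^ 4 - q ^ 4) * s.m4 + 4 * (q + 1) ^ 3 * s.m3 + 6 * (q + 1) ^ 2 * s.m2 +
    4 * (q + 1) * s.m1 + DD) / q ^ 5 + 1

/-- moment bounds -/
def mrec : List ℕ → MS
  | [] => ⟨0, 0, 0, 0⟩
  | q :: l => mstep q (mrec l)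

set_option maxRecDepth 100000 in
theorem mrec_le : (mrec QL).m4 ≤ 265830000000 := by
  decide +kernel

/-- scaled bound for the product of `1 + 1 / q ^ 2` -/
def prec : List ℕ → ℕ
  | [] => DD
  | q :: l => prec l + prec l / q ^ 2 + 1

/-- scaled bound for the sum of `1 / q ^ k` -/
def srec (k : ℕ) : List ℕ → ℕ
  | [] => 0
  | q :: l => srec k l + DD / q ^ k + 1

set_option maxRecDepth 100000 in
theorem prec_le : prec QL ≤ 1052200000000000 := by
  decide +kernel

set_option maxRecDepth 100000 in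
theorem srec2_le : srec 2 QL ≤ 51100000000000 := by
  decide +kernel

set_option maxRecDepth 100000 in
theorem srec5_le : srec 5 QL ≤ 70000000000 := by
  decide +kernel

/-- the list is strictly increasing -/
def incChk : List ℕ → ℕ → Bool
  | [], _ => true
  | q :: l, a => Nat.blt a q && incChk l q

/-- trial division -/
def primeChk (q : ℕ) : Bool :=
  Nat.blt 5 q && Nat.blt q 2025 &&
    allN (fun m => Nat.ble m 1 || Nat.blt q (m * m) || !(Nat.beq (q % m) 0)) 45

/-- small trial divisors -/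
def smallL : List ℕ := [2, 3, 5, 7, 11, 13, 17, 19, 23, 29, 31, 37, 41, 43]

/-- `n` is small, composite or in the list -/
def compChk (n : ℕ) : Bool :=
  Nat.ble n 5 || smallL.any (fun m => Nat.blt 1 m && Nat.blt m n && Nat.beq (n % m) 0) ||
    QL.any (Nat.beq n)

set_option maxRecDepth 100000 in
theorem incChk_QL : incChk QL 6 = true := by
  decide +kernel

set_option maxRecDepth 100000 in
theorem primeChk_QL : QL.all primeChk = true := by
  decide +kernel

set_option maxRecDepth 100000 in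
theorem compChk_all : allN compChk 2000 = true := by
  decide +kernel

theorem incChk_lt : ∀ (l : List ℕ) (a : ℕ), incChk l a = true → ∀ q ∈ l, a < q := by
  intro l
  induction l with
  | nil => intro a _ q hq; simp at hq
  | cons b l ih =>
    intro a h q hq
    simp only [incChk, Bool.and_eq_true, Nat.blt_eq] at h
    rcases List.mem_cons.1 hq with e | e
    · rw [e]; exact h.1
    · exact h.1.trans (ih b h.2 q e)

theorem incChk_nodup : ∀ (l : List ℕ) (a : ℕ), incChk l a = true → l.Nodup := by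
  intro l
  induction l with
  | nil => intro a _; exact List.nodup_nil
  | cons b l ih =>
    intro a h
    simp only [incChk, Bool.and_eq_true, Nat.blt_eq] at h
    rw [List.nodup_cons]
    exact ⟨fun hb => lt_irrefl _ (incChk_lt l b h.2 b hb), ih b h.2⟩

theorem QL_nodup : QL.Nodup := incChk_nodup _ _ incChk_QL

theorem QL_prime : ∀ q ∈ QL, q.Prime := by
  intro q hq
  have h := List.all_eq_true.1 primeChk_QL q hq
  unfold primeChk at h
  simp only [Bool.and_eq_true, Nat.blt_eq] at h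
  obtain ⟨⟨h1, h2⟩, h3⟩ := h
  rw [Nat.prime_def_le_sqrt]
  refine ⟨by omega, fun m hm hms hdvd => ?_⟩
  rw [Nat.le_sqrt] at hms
  have hm45 : m < 45 := by
    by_contra hc
    have : 45 * 45 ≤ m * m := Nat.mul_le_mul (by omega) (by omega)
    omega
  have := (allN_iff _ _).1 h3 m hm45
  simp only [Bool.or_eq_true, Nat.ble_eq, Nat.blt_eq, Bool.not_eq_true'] at this
  rcases this with (h | h) | h
  · omega
  · omega
  · have e : q % m = 0 := Nat.mod_eq_zero_of_dvd hdvd
    rw [e] at h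
    exact absurd h (by decide)

theorem QL_gt : ∀ q ∈ QL, 6 < q := incChk_lt _ _ incChk_QL

theorem mem_QL_of_prime {p : ℕ} (hp : p.Prime) (h5 : 5 < p) (h : p < 2000) : p ∈ QL := by
  have h1 := (allN_iff _ _).1 compChk_all p h
  unfold compChk at h1
  simp only [Bool.or_eq_true, Nat.ble_eq, List.any_eq_true, Bool.and_eq_true, Nat.blt_eq,
    Nat.beq_eq] at h1
  rcases h1 with (h1 | ⟨m, -, ⟨h2, h3⟩, h4⟩) | ⟨x, hx, e⟩
  · omega
  · have hd : m ∣ p := Nat.dvd_of_mod_eq_zero h4
    rcases (Nat.dvd_prime hp).1 hd with e | e <;> omega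
  · rw [e]; exact hx

/-- the primes between 7 and 1999 as a finite set -/
def QS : Finset ℕ := QL.toFinset

theorem mem_QS {q : ℕ} : q ∈ QS ↔ q ∈ QL := List.mem_toFinset

theorem floor_step (a b : ℕ) (hb : 0 < b) : (a : ℝ) / b ≤ ((a / b + 1 : ℕ) : ℝ) := by
  have hb' : (0 : ℝ) < b := by exact_mod_cast hb
  rw [div_le_iff₀ hb']
  have := Nat.lt_mul_div_succ a hb
  have h2 : a ≤ (a / b + 1) * b := by
    rw [mul_comm]
    exact this.le
  exact_mod_cast h2

theorem prod_le_prec (l : List ℕ) (h : ∀ q ∈ l, 0 < q) :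
    (l.map (fun q : ℕ => (1 + 1 / (q : ℝ) ^ 2))).prod * DD ≤ ((prec l : ℕ) : ℝ) := by
  induction l with
  | nil => simp [prec]
  | cons q l ih =>
    have hq : 0 < q := h q (by simp)
    have hq' : (0 : ℝ) < q := by exact_mod_cast hq
    have ih' := ih (fun q hq => h q (by simp [hq]))
    rw [List.map_cons, List.prod_cons]
    have h1 := floor_step (prec l) (q ^ 2) (by positivity)
    have h2 : ((prec (q :: l) : ℕ) : ℝ) = ((prec l : ℕ) : ℝ) + ((prec l / q ^ 2 + 1 : ℕ) : ℝ) := by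
      have : prec (q :: l) = prec l + (prec l / q ^ 2 + 1) := rfl
      rw [this]
      push_cast
      ring
    rw [h2]
    calc (1 + 1 / (q : ℝ) ^ 2) * (l.map (fun q : ℕ => (1 + 1 / (q : ℝ) ^ 2))).prod * DD
        = (1 + 1 / (q : ℝ) ^ 2) * ((l.map (fun q : ℕ => (1 + 1 / (q : ℝ) ^ 2))).prod * DD) := by
          ring
      _ ≤ (1 + 1 / (q : ℝ) ^ 2) * ((prec l : ℕ) : ℝ) := by
          apply mul_le_mul_of_nonneg_left ih' (by positivity)
      _ = ((prec l : ℕ) : ℝ) + ((prec l : ℕ) : ℝ) / ((q ^ 2 : ℕ) : ℝ) := by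
          push_cast
          ring
      _ ≤ _ := by linarith

theorem sum_le_srec (k : ℕ) (l : List ℕ) (h : ∀ q ∈ l, 0 < q) :
    (l.map (fun q : ℕ => (1 / (q : ℝ) ^ k))).sum * DD ≤ ((srec k l : ℕ) : ℝ) := by
  induction l with
  | nil => simp [srec]
  | cons q l ih =>
    have hq : 0 < q := h q (by simp)
    have hq' : (0 : ℝ) < q := by exact_mod_cast hq
    have ih' := ih (fun q hq => h q (by simp [hq]))
    rw [List.map_cons, List.sum_cons]
    have h1 := floor_step DD (q ^ k) (by positivity)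
    have h2 : ((srec k (q :: l) : ℕ) : ℝ) = ((srec k l : ℕ) : ℝ) + ((DD / q ^ k + 1 : ℕ) : ℝ) := by
      have : srec k (q :: l) = srec k l + (DD / q ^ k + 1) := rfl
      rw [this]
      push_cast
      ring
    rw [h2, add_mul]
    have h3 : 1 / (q : ℝ) ^ k * DD = (DD : ℝ) / ((q ^ k : ℕ) : ℝ) := by
      push_cast
      ring
    rw [h3]
    linarith

theorem prod_QS_le : ∏ q ∈ QS, (1 + 1 / (q : ℝ) ^ 2) ≤ 10522 / 10000 := by
  have h1 := prod_le_prec QL (fun q hq => by have := QL_gt q hq; omega)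
  have h2 : ((prec QL : ℕ) : ℝ) ≤ 1052200000000000 := by exact_mod_cast prec_le
  unfold QS
  rw [List.prod_toFinset _ QL_nodup]
  have h3 : ((DD : ℕ) : ℝ) = 1000000000000000 := by unfold DD; norm_num
  rw [h3] at h1
  rw [le_div_iff₀ (by norm_num)]
  linarith

theorem sum2_QS_le : ∑ q ∈ QS, 1 / (q : ℝ) ^ 2 ≤ 511 / 10000 := by
  have h1 := sum_le_srec 2 QL (fun q hq => by have := QL_gt q hq; omega)
  have h2 : ((srec 2 QL : ℕ) : ℝ) ≤ 51100000000000 := by exact_mod_cast srec2_le
  unfold QS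
  rw [List.sum_toFinset _ QL_nodup]
  have h3 : ((DD : ℕ) : ℝ) = 1000000000000000 := by unfold DD; norm_num
  rw [h3] at h1
  rw [le_div_iff₀ (by norm_num)]
  linarith

theorem sum5_QS_le : ∑ q ∈ QS, 1 / (q : ℝ) ^ 5 ≤ 7 / 100000 := by
  have h1 := sum_le_srec 5 QL (fun q hq => by have := QL_gt q hq; omega)
  have h2 : ((srec 5 QL : ℕ) : ℝ) ≤ 70000000000 := by exact_mod_cast srec5_le
  unfold QS
  rw [List.sum_toFinset _ QL_nodup]
  have h3 : ((DD : ℕ) : ℝ) = 1000000000000000 := by unfold DD; norm_num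
  rw [h3] at h1
  rw [le_div_iff₀ (by norm_num)]
  linarith

end Pool.Agent.GPF
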