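import Mathlib
import Pool.Agent.Lib.GPF.Primes

/-!
Sums over integers coprime to 30 and the moment bound.
-/

open Finset

namespace Pool.Agent.GPF

/-- the integers in `[1, N]` coprime to 30 -/
def NN (N : ℕ) : Finset ℕ := {m ∈ Icc 1 N | Nat.Coprime m 30}

theorem mem_NN {N m : ℕ} : m ∈ NN N ↔ 1 ≤ m ∧ m ≤ N ∧ Nat.Coprime m 30 := by
  unfold NN
  rw [Finset.mem_filter, Finset.mem_Icc, and_assoc]

/-- logarithmic sum of the integers coprime to 30 -/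
noncomputable def L0 (N : ℕ) : ℝ := ∑ m ∈ NN N, (1 : ℝ) / m

theorem L0_nonneg (N : ℕ) : 0 ≤ L0 N := Finset.sum_nonneg (fun _ _ => by positivity)

theorem NN_div {N t d : ℕ} (ht : t ∈ NN N) (hd : d ∣ t) : t / d ∈ NN N := by
  rw [mem_NN] at *
  obtain ⟨u, hu⟩ := hd
  have hd0 : 0 < d := by
    rcases Nat.eq_zero_or_pos d with h | h
    · rw [h, zero_mul] at hu
      omega
    · exact h
  rw [hu, Nat.mul_div_cancel_left _ hd0]
  have hu0 : 0 < u := by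
    rcases Nat.eq_zero_or_pos u with h | h
    · rw [h, mul_zero] at hu
      omega
    · exact h
  refine ⟨hu0, ?_, ?_⟩
  · have : u ≤ d * u := Nat.le_mul_of_pos_left u hd0
    omega
  · rw [hu] at ht
    exact Nat.Coprime.coprime_mul_left ht.2.2

theorem dil (N d : ℕ) (Φ : ℕ → ℝ) (hΦ : ∀ t, 0 ≤ Φ t) (hd : 0 < d) :
    ∑ t ∈ NN N with d ∣ t, Φ (t / d) / t ≤ 1 / (d : ℝ) * ∑ t ∈ NN N, Φ t / t := by
  have hd' : (0 : ℝ) < d := by exact_mod_cast hd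
  have h1 : ∑ t ∈ NN N with d ∣ t, Φ (t / d) / t =
      ∑ t ∈ NN N with d ∣ t, (fun u : ℕ => 1 / (d : ℝ) * (Φ u / u)) (t / d) := by
    apply Finset.sum_congr rfl
    intro t ht
    rw [Finset.mem_filter] at ht
    obtain ⟨u, hu⟩ := ht.2
    rw [hu, Nat.mul_div_cancel_left _ hd]
    have hu0 : (u : ℝ) ≠ 0 := by
      have := (mem_NN.1 ht.1).1
      rcases Nat.eq_zero_or_pos u with h | h
      · rw [h, mul_zero] at hu
        omega
      · exact_mod_cast h.ne'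
    push_cast
    field_simp
  have hinj : Set.InjOn (fun t => t / d) (({t ∈ NN N | d ∣ t} : Finset ℕ) : Set ℕ) := by
    intro a ha b hb hab
    simp only [Finset.coe_filter, Set.mem_ofPred_eq] at ha hb
    have := Nat.div_mul_cancel ha.2
    have := Nat.div_mul_cancel hb.2
    simp only at hab
    rw [← Nat.div_mul_cancel ha.2, ← Nat.div_mul_cancel hb.2, hab]
  rw [h1, ← Finset.sum_image (g := fun t => t / d)
    (f := fun u : ℕ => 1 / (d : ℝ) * (Φ u / u)) hinj, Finset.mul_sum]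
  apply Finset.sum_le_sum_of_subset_of_nonneg
  · intro u hu
    rw [Finset.mem_image] at hu
    obtain ⟨t, ht, rfl⟩ := hu
    rw [Finset.mem_filter] at ht
    exact NN_div ht.1 ht.2
  · intro u _ _
    have := hΦ u
    positivity

/-- the multiplicative weight attached to a list of primes -/
noncomputable def XX (l : List ℕ) (t : ℕ) : ℝ :=
  (l.map (fun q : ℕ => if q ∣ t then 1 + 1 / (q : ℝ) else 1)).prod

theorem XX_cons (q : ℕ) (l : List ℕ) (t : ℕ) :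
    XX (q :: l) t = (if q ∣ t then 1 + 1 / (q : ℝ) else 1) * XX l t := by
  unfold XX
  rw [List.map_cons, List.prod_cons]

theorem one_le_XX (l : List ℕ) (t : ℕ) : 1 ≤ XX l t := by
  induction l with
  | nil => simp [XX]
  | cons q l ih =>
    rw [XX_cons]
    have h1 : (1 : ℝ) ≤ (if q ∣ t then 1 + 1 / (q : ℝ) else 1) := by
      split_ifs
      · have : (0 : ℝ) ≤ 1 / (q : ℝ) := by positivity
        linarith
      · exact le_rfl
    nlinarith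

theorem XX_div (q : ℕ) (hq : q.Prime) (l : List ℕ) (hl : ∀ p ∈ l, p.Prime) (hn : q ∉ l) (t : ℕ)
    (ht : q ∣ t) : XX l (t / q) = XX l t := by
  induction l with
  | nil => simp [XX]
  | cons p l ih =>
    have hpp : p.Prime := hl p (by simp)
    have hpq : p ≠ q := fun h => hn (by simp [h])
    have ih' := ih (fun p hp => hl p (by simp [hp])) (fun h => hn (by simp [h]))
    have hiff : p ∣ t / q ↔ p ∣ t := by
      obtain ⟨u, rfl⟩ := ht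
      rw [Nat.mul_div_cancel_left _ hq.pos]
      constructor
      · intro h; exact h.mul_left q
      · intro h
        rcases (Nat.Prime.dvd_mul hpp).1 h with h | h
        · exact absurd ((Nat.prime_dvd_prime_iff_eq hpp hq).1 h) hpq
        · exact h
    rw [XX_cons, XX_cons, ih']
    simp only [hiff]

/-- moments -/
noncomputable def MM (k : ℕ) (l : List ℕ) (N : ℕ) : ℝ := ∑ t ∈ NN N, (XX l t - 1) ^ k / t

theorem MM_nonneg (k : ℕ) (l : List ℕ) (N : ℕ) : 0 ≤ MM k l N := by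
  unfold MM
  apply Finset.sum_nonneg
  intro t _
  have := one_le_XX l t
  have h : 0 ≤ XX l t - 1 := by linarith
  positivity

theorem MM_cons_le (k q : ℕ) (hq : q.Prime) (l : List ℕ) (hl : ∀ p ∈ l, p.Prime) (hn : q ∉ l)
    (N : ℕ) : MM k (q :: l) N ≤ MM k l N + 1 / (q : ℝ) *
      ∑ t ∈ NN N, (((1 + 1 / (q : ℝ)) * (XX l t - 1) + 1 / (q : ℝ)) ^ k - (XX l t - 1) ^ k) / t := by
  have hq0 : (0 : ℝ) < q := by exact_mod_cast hq.pos
  set Φ : ℕ → ℝ := fun t =>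
    ((1 + 1 / (q : ℝ)) * (XX l t - 1) + 1 / (q : ℝ)) ^ k - (XX l t - 1) ^ k with hΦ
  have hΦ0 : ∀ t, 0 ≤ Φ t := by
    intro t
    have h1 := one_le_XX l t
    have h2 : 0 ≤ XX l t - 1 := by linarith
    have h3 : XX l t - 1 ≤ (1 + 1 / (q : ℝ)) * (XX l t - 1) + 1 / (q : ℝ) := by
      have : 0 ≤ 1 / (q : ℝ) := by positivity
      nlinarith
    have := pow_le_pow_left₀ h2 h3 k
    simp only [hΦ]
    linarith
  have h1 : MM k (q :: l) N = MM k l N + ∑ t ∈ NN N with q ∣ t, Φ (t / q) / t := by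
    unfold MM
    rw [Finset.sum_filter, ← Finset.sum_add_distrib]
    apply Finset.sum_congr rfl
    intro t _
    rw [XX_cons]
    split_ifs with h
    · simp only [hΦ]
      rw [XX_div q hq l hl hn t h]
      have e : (1 + 1 / (q : ℝ)) * XX l t - 1 = (1 + 1 / (q : ℝ)) * (XX l t - 1) + 1 / (q : ℝ) := by
        ring
      rw [e]
      ring
    · rw [one_mul, add_zero]
  rw [h1]
  have := dil N q Φ hΦ0 hq.pos
  linarith

theorem poly_sum (l : List ℕ) (N : ℕ) (c0 c1 c2 c3 c4 : ℝ) :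
    ∑ t ∈ NN N, (c4 * (XX l t - 1) ^ 4 + c3 * (XX l t - 1) ^ 3 + c2 * (XX l t - 1) ^ 2 +
      c1 * (XX l t - 1) + c0) / t = c4 * MM 4 l N + c3 * MM 3 l N + c2 * MM 2 l N +
        c1 * MM 1 l N + c0 * L0 N := by
  unfold MM L0
  simp only [Finset.mul_sum, ← Finset.sum_add_distrib]
  apply Finset.sum_congr rfl
  intro t _
  ring

theorem step_gen {q k : ℕ} (hq : 0 < q) {M M' S L D : ℝ} {m c : ℕ} (hL : 0 ≤ L) (hD : 0 ≤ D)
    (h1 : M' ≤ M + 1 / (q : ℝ) ^ k * S) (h2 : M * D ≤ m * L) (h3 : S * D ≤ c * L) :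
    M' * D ≤ ((m + c / q ^ k + 1 : ℕ) : ℝ) * L := by
  have hq' : (0 : ℝ) < q := by exact_mod_cast hq
  have h4 := floor_step c (q ^ k) (Nat.pow_pos hq)
  have h5 : M' * D ≤ M * D + 1 / (q : ℝ) ^ k * (S * D) := by
    calc M' * D ≤ (M + 1 / (q : ℝ) ^ k * S) * D := mul_le_mul_of_nonneg_right h1 hD
      _ = _ := by ring
  have h6 : 1 / (q : ℝ) ^ k * (S * D) ≤ 1 / (q : ℝ) ^ k * (c * L) :=
    mul_le_mul_of_nonneg_left h3 (by positivity)
  have h7 : 1 / (q : ℝ) ^ k * (c * L) ≤ ((c / q ^ k + 1 : ℕ) : ℝ) * L := by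
    have := mul_le_mul_of_nonneg_right h4 hL
    calc 1 / (q : ℝ) ^ k * (c * L) = ((c : ℝ) / ((q ^ k : ℕ) : ℝ)) * L := by
          rw [Nat.cast_pow]
          ring
      _ ≤ _ := this
  have h8 : ((m + c / q ^ k + 1 : ℕ) : ℝ) * L = m * L + ((c / q ^ k + 1 : ℕ) : ℝ) * L := by
    rw [add_assoc, Nat.cast_add]
    ring
  rw [h8]
  linarith

theorem step1 (q : ℕ) (hq : q.Prime) (l : List ℕ) (hl : ∀ p ∈ l, p.Prime) (hn : q ∉ l)
    (N : ℕ) : MM 1 (q :: l) N ≤ MM 1 l N + 1 / (q : ℝ) ^ 2 * (MM 1 l N + L0 N) := by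
  have hq0 : (0 : ℝ) < q := by exact_mod_cast hq.pos
  have h1 := MM_cons_le 1 q hq l hl hn N
  have h2 : ∑ t ∈ NN N, (((1 + 1 / (q : ℝ)) * (XX l t - 1) + 1 / (q : ℝ)) ^ 1 -
      (XX l t - 1) ^ 1) / t = 1 / (q : ℝ) * (MM 1 l N + L0 N) := by
    have := poly_sum l N (1 / (q : ℝ)) (1 / (q : ℝ)) 0 0 0
    have h3 : 1 / (q : ℝ) * (MM 1 l N + L0 N) = 0 * MM 4 l N + 0 * MM 3 l N + 0 * MM 2 l N +
      1 / (q : ℝ) * MM 1 l N + 1 / (q : ℝ) * L0 N := by ring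
    rw [h3, ← this]
    apply Finset.sum_congr rfl
    intro t _
    ring
  rw [h2] at h1
  have e : 1 / (q : ℝ) * (1 / (q : ℝ) * (MM 1 l N + L0 N)) =
      1 / (q : ℝ) ^ 2 * (MM 1 l N + L0 N) := by ring
  rw [e] at h1
  exact h1

theorem step2 (q : ℕ) (hq : q.Prime) (l : List ℕ) (hl : ∀ p ∈ l, p.Prime) (hn : q ∉ l)
    (N : ℕ) : MM 2 (q :: l) N ≤ MM 2 l N + 1 / (q : ℝ) ^ 3 *
      ((2 * q + 1) * MM 2 l N + 2 * (q + 1) * MM 1 l N + L0 N) := by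
  have hq0 : (0 : ℝ) < q := by exact_mod_cast hq.pos
  have h1 := MM_cons_le 2 q hq l hl hn N
  have h2 : ∑ t ∈ NN N, (((1 + 1 / (q : ℝ)) * (XX l t - 1) + 1 / (q : ℝ)) ^ 2 -
      (XX l t - 1) ^ 2) / t = 1 / (q : ℝ) ^ 2 * ((2 * q + 1) * MM 2 l N +
        2 * (q + 1) * MM 1 l N + L0 N) := by
    have := poly_sum l N (1 / (q : ℝ) ^ 2) (1 / (q : ℝ) ^ 2 * (2 * (q + 1)))
      (1 / (q : ℝ) ^ 2 * (2 * q + 1)) 0 0
    have h3 : 1 / (q : ℝ) ^ 2 * ((2 * q + 1) * MM 2 l N +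
        2 * (q + 1) * MM 1 l N + L0 N) = 0 * MM 4 l N + 0 * MM 3 l N +
        1 / (q : ℝ) ^ 2 * (2 * q + 1) * MM 2 l N +
        1 / (q : ℝ) ^ 2 * (2 * (q + 1)) * MM 1 l N + 1 / (q : ℝ) ^ 2 * L0 N := by ring
    rw [h3, ← this]
    apply Finset.sum_congr rfl
    intro t _
    congr 1
    field_simp
    ring
  rw [h2] at h1
  have e : 1 / (q : ℝ) * (1 / (q : ℝ) ^ 2 * ((2 * q + 1) * MM 2 l N +
        2 * (q + 1) * MM 1 l N + L0 N)) = 1 / (q : ℝ) ^ 3 * ((2 * q + 1) * MM 2 l N +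
        2 * (q + 1) * MM 1 l N + L0 N) := by ring
  rw [e] at h1
  exact h1

theorem step3 (q : ℕ) (hq : q.Prime) (l : List ℕ) (hl : ∀ p ∈ l, p.Prime) (hn : q ∉ l)
    (N : ℕ) : MM 3 (q :: l) N ≤ MM 3 l N + 1 / (q : ℝ) ^ 4 *
      ((((q : ℝ) + 1) ^ 3 - (q : ℝ) ^ 3) * MM 3 l N + 3 * (q + 1) ^ 2 * MM 2 l N +
        3 * (q + 1) * MM 1 l N + L0 N) := by
  have hq0 : (0 : ℝ) < q := by exact_mod_cast hq.pos
  have h1 := MM_cons_le 3 q hq l hl hn N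
  have h2 : ∑ t ∈ NN N, (((1 + 1 / (q : ℝ)) * (XX l t - 1) + 1 / (q : ℝ)) ^ 3 -
      (XX l t - 1) ^ 3) / t = 1 / (q : ℝ) ^ 3 * ((((q : ℝ) + 1) ^ 3 - (q : ℝ) ^ 3) * MM 3 l N +
        3 * (q + 1) ^ 2 * MM 2 l N + 3 * (q + 1) * MM 1 l N + L0 N) := by
    have := poly_sum l N (1 / (q : ℝ) ^ 3) (1 / (q : ℝ) ^ 3 * (3 * (q + 1)))
      (1 / (q : ℝ) ^ 3 * (3 * (q + 1) ^ 2))
      (1 / (q : ℝ) ^ 3 * (((q : ℝ) + 1) ^ 3 - (q : ℝ) ^ 3)) 0
    have h3 : 1 / (q : ℝ) ^ 3 * ((((q : ℝ) + 1) ^ 3 - (q : ℝ) ^ 3) * MM 3 l N +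
        3 * (q + 1) ^ 2 * MM 2 l N + 3 * (q + 1) * MM 1 l N + L0 N) =
        0 * MM 4 l N + 1 / (q : ℝ) ^ 3 * (((q : ℝ) + 1) ^ 3 - (q : ℝ) ^ 3) * MM 3 l N +
        1 / (q : ℝ) ^ 3 * (3 * (q + 1) ^ 2) * MM 2 l N +
        1 / (q : ℝ) ^ 3 * (3 * (q + 1)) * MM 1 l N + 1 / (q : ℝ) ^ 3 * L0 N := by ring
    rw [h3, ← this]
    apply Finset.sum_congr rfl
    intro t _
    congr 1
    field_simp
    ring
  rw [h2] at h1
  have e : ∀ x : ℝ, 1 / (q : ℝ) * (1 / (q : ℝ) ^ 3 * x) = 1 / (q : ℝ) ^ 4 * x := by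
    intro x
    ring
  rw [e] at h1
  exact h1

theorem step4 (q : ℕ) (hq : q.Prime) (l : List ℕ) (hl : ∀ p ∈ l, p.Prime) (hn : q ∉ l)
    (N : ℕ) : MM 4 (q :: l) N ≤ MM 4 l N + 1 / (q : ℝ) ^ 5 *
      ((((q : ℝ) + 1) ^ 4 - (q : ℝ) ^ 4) * MM 4 l N + 4 * (q + 1) ^ 3 * MM 3 l N +
        6 * (q + 1) ^ 2 * MM 2 l N + 4 * (q + 1) * MM 1 l N + L0 N) := by
  have hq0 : (0 : ℝ) < q := by exact_mod_cast hq.pos
  have h1 := MM_cons_le 4 q hq l hl hn N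
  have h2 : ∑ t ∈ NN N, (((1 + 1 / (q : ℝ)) * (XX l t - 1) + 1 / (q : ℝ)) ^ 4 -
      (XX l t - 1) ^ 4) / t = 1 / (q : ℝ) ^ 4 * ((((q : ℝ) + 1) ^ 4 - (q : ℝ) ^ 4) * MM 4 l N +
        4 * (q + 1) ^ 3 * MM 3 l N + 6 * (q + 1) ^ 2 * MM 2 l N +
        4 * (q + 1) * MM 1 l N + L0 N) := by
    have := poly_sum l N (1 / (q : ℝ) ^ 4) (1 / (q : ℝ) ^ 4 * (4 * (q + 1)))
      (1 / (q : ℝ) ^ 4 * (6 * (q + 1) ^ 2)) (1 / (q : ℝ) ^ 4 * (4 * (q + 1) ^ 3))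
      (1 / (q : ℝ) ^ 4 * (((q : ℝ) + 1) ^ 4 - (q : ℝ) ^ 4))
    have h3 : 1 / (q : ℝ) ^ 4 * ((((q : ℝ) + 1) ^ 4 - (q : ℝ) ^ 4) * MM 4 l N +
        4 * (q + 1) ^ 3 * MM 3 l N + 6 * (q + 1) ^ 2 * MM 2 l N +
        4 * (q + 1) * MM 1 l N + L0 N) =
        1 / (q : ℝ) ^ 4 * (((q : ℝ) + 1) ^ 4 - (q : ℝ) ^ 4) * MM 4 l N +
        1 / (q : ℝ) ^ 4 * (4 * (q + 1) ^ 3) * MM 3 l N +
        1 / (q : ℝ) ^ 4 * (6 * (q + 1) ^ 2) * MM 2 l N +
        1 / (q : ℝ) ^ 4 * (4 * (q + 1)) * MM 1 l N + 1 / (q : ℝ) ^ 4 * L0 N := by ring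
    rw [h3, ← this]
    apply Finset.sum_congr rfl
    intro t _
    congr 1
    field_simp
    ring
  rw [h2] at h1
  have e : ∀ x : ℝ, 1 / (q : ℝ) * (1 / (q : ℝ) ^ 4 * x) = 1 / (q : ℝ) ^ 5 * x := by
    intro x
    ring
  rw [e] at h1
  exact h1

theorem moment_bound (N : ℕ) (l : List ℕ) (hl : ∀ p ∈ l, p.Prime) (hn : l.Nodup) :
    MM 1 l N * ((DD : ℕ) : ℝ) ≤ (((mrec l).m1 : ℕ) : ℝ) * L0 N ∧
    MM 2 l N * ((DD : ℕ) : ℝ) ≤ (((mrec l).m2 : ℕ) : ℝ) * L0 N ∧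
    MM 3 l N * ((DD : ℕ) : ℝ) ≤ (((mrec l).m3 : ℕ) : ℝ) * L0 N ∧
    MM 4 l N * ((DD : ℕ) : ℝ) ≤ (((mrec l).m4 : ℕ) : ℝ) * L0 N := by
  induction l with
  | nil =>
    have h : ∀ k, 0 < k → MM k [] N = 0 := by
      intro k hk
      unfold MM XX
      simp [hk.ne']
    rw [h 1 (by norm_num), h 2 (by norm_num), h 3 (by norm_num), h 4 (by norm_num)]
    simp [mrec]
  | cons q l ih =>
    have hqp : q.Prime := hl q (by simp)
    have hn' := List.nodup_cons.1 hn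
    have hl' : ∀ p ∈ l, p.Prime := fun p hp => hl p (by simp [hp])
    obtain ⟨i1, i2, i3, i4⟩ := ih hl' hn'.2
    have hL := L0_nonneg N
    have hD : (0 : ℝ) ≤ ((DD : ℕ) : ℝ) := Nat.cast_nonneg _
    have s1 := step1 q hqp l hl' hn'.1 N
    have s2 := step2 q hqp l hl' hn'.1 N
    have s3 := step3 q hqp l hl' hn'.1 N
    have s4 := step4 q hqp l hl' hn'.1 N
    have hrec : mrec (q :: l) = mstep q (mrec l) := by rw [mrec]
    rw [hrec]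
    generalize mrec l = s at *
    unfold mstep
    generalize DD = D at *
    simp only
    refine ⟨?_, ?_, ?_, ?_⟩
    · apply step_gen hqp.pos hL hD s1 i1
      push_cast
      linarith
    · apply step_gen hqp.pos hL hD s2 i2
      push_cast
      have a1 := mul_le_mul_of_nonneg_left i2 (by positivity : (0 : ℝ) ≤ 2 * q + 1)
      have a2 := mul_le_mul_of_nonneg_left i1 (by positivity : (0 : ℝ) ≤ 2 * (q + 1))
      linarith
    · apply step_gen hqp.pos hL hD s3 i3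
      have hc : (((q + 1) ^ 3 - q ^ 3 : ℕ) : ℝ) = ((q : ℝ) + 1) ^ 3 - (q : ℝ) ^ 3 := by
        rw [Nat.cast_sub (Nat.pow_le_pow_left (by omega) 3)]
        push_cast
        ring
      have hc0 : (0 : ℝ) ≤ ((q : ℝ) + 1) ^ 3 - (q : ℝ) ^ 3 := by
        rw [← hc]
        exact Nat.cast_nonneg _
      have a1 := mul_le_mul_of_nonneg_left i3 hc0
      have a2 := mul_le_mul_of_nonneg_left i2 (by positivity : (0 : ℝ) ≤ 3 * (q + 1) ^ 2)
      have a3 := mul_le_mul_of_nonneg_left i1 (by positivity : (0 : ℝ) ≤ 3 * (q + 1))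
      rw [Nat.cast_add, Nat.cast_add, Nat.cast_add, Nat.cast_mul, hc]
      push_cast
      linarith
    · apply step_gen hqp.pos hL hD s4 i4
      have hc : (((q + 1) ^ 4 - q ^ 4 : ℕ) : ℝ) = ((q : ℝ) + 1) ^ 4 - (q : ℝ) ^ 4 := by
        rw [Nat.cast_sub (Nat.pow_le_pow_left (by omega) 4)]
        push_cast
        ring
      have hc0 : (0 : ℝ) ≤ ((q : ℝ) + 1) ^ 4 - (q : ℝ) ^ 4 := by
        rw [← hc]
        exact Nat.cast_nonneg _
      have a1 := mul_le_mul_of_nonneg_left i4 hc0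
      have a2 := mul_le_mul_of_nonneg_left i3 (by positivity : (0 : ℝ) ≤ 4 * (q + 1) ^ 3)
      have a3 := mul_le_mul_of_nonneg_left i2 (by positivity : (0 : ℝ) ≤ 6 * (q + 1) ^ 2)
      have a4 := mul_le_mul_of_nonneg_left i1 (by positivity : (0 : ℝ) ≤ 4 * (q + 1))
      rw [Nat.cast_add, Nat.cast_add, Nat.cast_add, Nat.cast_add, Nat.cast_mul, hc]
      push_cast
      linarith

theorem fourth_moment (N : ℕ) :
    MM 4 QL N ≤ 26583 / 100000000 * L0 N := by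
  obtain ⟨-, -, -, h⟩ := moment_bound N QL QL_prime QL_nodup
  have h1 : (((mrec QL).m4 : ℕ) : ℝ) ≤ 265830000000 := by exact_mod_cast mrec_le
  have h2 : ((DD : ℕ) : ℝ) = 1000000000000000 := by unfold DD; norm_num
  rw [h2] at h
  have h3 := mul_le_mul_of_nonneg_right h1 (L0_nonneg N)
  linarith

end Pool.Agent.GPF
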