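import Mathlib
import Pool.Agent.Lib.GPF.Density
import Pool.Agent.Lib.GPF.Moment
import Pool.Agent.Lib.GPF.Block

/-!
Regrouping of the block sums.
-/

open Finset

namespace Pool.Agent.GPF

/-- the primes in the list with exponent exactly two -/
def SS (m : ℕ) : Finset ℕ := {q ∈ QS | m.factorization q = 2}

theorem mem_SS {m q : ℕ} : q ∈ SS m ↔ q ∈ QS ∧ m.factorization q = 2 := by
  unfold SS
  rw [Finset.mem_filter]

theorem QS_prime {q : ℕ} (hq : q ∈ QS) : q.Prime := QL_prime q (mem_QS.1 hq)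

/-- the product of a finite set of primes -/
def PP (S : Finset ℕ) : ℕ := ∏ q ∈ S, q

theorem PP_pos {S : Finset ℕ} (hS : ∀ q ∈ S, q.Prime) : 0 < PP S :=
  Finset.prod_pos (fun q hq => (hS q hq).pos)

theorem PP_fact {S : Finset ℕ} (hS : ∀ q ∈ S, q.Prime) (p : ℕ) :
    (PP S).factorization p = if p ∈ S then 1 else 0 := by
  classical
  unfold PP
  rw [Nat.factorization_prod (fun q hq => (hS q hq).ne_zero), Finset.sum_apply']
  have h : ∀ q ∈ S, (q.factorization) p = if q = p then 1 else 0 := by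
    intro q hq
    rw [(hS q hq).factorization, Finsupp.single_apply]
  rw [Finset.sum_congr rfl h, Finset.sum_ite_eq']

theorem SS_prime {m : ℕ} : ∀ q ∈ SS m, q.Prime := fun _ hq => QS_prime (mem_SS.1 hq).1

theorem one_lt_PP {S : Finset ℕ} (hS : ∀ q ∈ S, q.Prime) (hne : S ≠ ∅) : 1 < PP S := by
  obtain ⟨q, hq⟩ := Finset.nonempty_iff_ne_empty.2 hne
  have h1 : q ∣ PP S := Finset.dvd_prod_of_mem _ hq
  exact lt_of_lt_of_le (hS q hq).one_lt (Nat.le_of_dvd (PP_pos hS) h1)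

theorem PP_sq_dvd {m : ℕ} (hm : m ≠ 0) : PP (SS m) ^ 2 ∣ m := by
  rw [← Nat.factorization_le_iff_dvd (pow_ne_zero _ (PP_pos SS_prime).ne') hm]
  intro p
  rw [Nat.factorization_pow, Finsupp.smul_apply, PP_fact SS_prime]
  split_ifs with h
  · rw [(mem_SS.1 h).2]
    simp
  · simp

/-- the number with the chosen primes removed -/
def hh (m : ℕ) : ℕ := m / PP (SS m) ^ 2

/-- the number with the chosen primes to the first power -/
def ff (m : ℕ) : ℕ := PP (SS m) * hh m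

theorem hh_mul {m : ℕ} (hm : m ≠ 0) : PP (SS m) ^ 2 * hh m = m :=
  Nat.mul_div_cancel' (PP_sq_dvd hm)

theorem ff_mul {m : ℕ} (hm : m ≠ 0) : PP (SS m) * ff m = m := by
  unfold ff
  rw [← mul_assoc, ← pow_two, hh_mul hm]

theorem hh_pos {m : ℕ} (hm : m ≠ 0) : 0 < hh m := by
  rcases Nat.eq_zero_or_pos (hh m) with h | h
  · have := hh_mul hm
    rw [h, mul_zero] at this
    exact absurd this.symm hm
  · exact h

theorem hh_fact {m : ℕ} (hm : m ≠ 0) (p : ℕ) :
    m.factorization p = 2 * (if p ∈ SS m then 1 else 0) + (hh m).factorization p := by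
  conv_lhs => rw [← hh_mul hm]
  rw [Nat.factorization_mul (pow_ne_zero _ (PP_pos SS_prime).ne') (hh_pos hm).ne',
    Finsupp.add_apply, Nat.factorization_pow, Finsupp.smul_apply, PP_fact SS_prime, smul_eq_mul]

theorem SS_hh {m : ℕ} (hm : m ≠ 0) : SS (hh m) = ∅ := by
  rw [Finset.eq_empty_iff_forall_notMem]
  intro q hq
  rw [mem_SS] at hq
  have h := hh_fact hm q
  by_cases hqm : q ∈ SS m
  · rw [if_pos hqm, (mem_SS.1 hqm).2] at h
    omega
  · rw [if_neg hqm] at h
    apply hqm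
    rw [mem_SS]
    exact ⟨hq.1, by omega⟩

theorem SS_ff {m : ℕ} (hm : m ≠ 0) : SS (ff m) = ∅ := by
  rw [Finset.eq_empty_iff_forall_notMem]
  intro q hq
  rw [mem_SS] at hq
  have h := hh_fact hm q
  have h2 : (ff m).factorization q = (if q ∈ SS m then 1 else 0) + (hh m).factorization q := by
    unfold ff
    rw [Nat.factorization_mul (PP_pos SS_prime).ne' (hh_pos hm).ne', Finsupp.add_apply,
      PP_fact SS_prime]
  by_cases hqm : q ∈ SS m
  · rw [if_pos hqm, (mem_SS.1 hqm).2] at h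
    rw [if_pos hqm] at h2
    omega
  · rw [if_neg hqm] at h h2
    apply hqm
    rw [mem_SS]
    exact ⟨hq.1, by omega⟩

/-- unpaired integers -/
def TT (N : ℕ) : Finset ℕ := {m ∈ NN N | SS m = ∅}

/-- paired integers -/
def UU (N : ℕ) : Finset ℕ := {m ∈ NN N | ¬ SS m = ∅}

theorem NN_ne {N m : ℕ} (h : m ∈ NN N) : m ≠ 0 := by
  have := (mem_NN.1 h).1
  omega

theorem hh_mem {N m : ℕ} (h : m ∈ UU N) : hh m ∈ TT N := by
  unfold UU at h
  rw [Finset.mem_filter] at h
  unfold TT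
  rw [Finset.mem_filter]
  have hm := NN_ne h.1
  exact ⟨NN_div h.1 (PP_sq_dvd hm), SS_hh hm⟩

theorem ff_mem {N m : ℕ} (h : m ∈ UU N) : ff m ∈ TT N := by
  unfold UU at h
  rw [Finset.mem_filter] at h
  unfold TT
  rw [Finset.mem_filter]
  have hm := NN_ne h.1
  refine ⟨?_, SS_ff hm⟩
  have h1 : ff m = m / PP (SS m) := by
    rw [← ff_mul hm]
    have e : PP (SS (PP (SS m) * ff m)) = PP (SS m) := by rw [ff_mul hm]
    rw [e, Nat.mul_div_cancel_left _ (PP_pos SS_prime), ff_mul hm]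
  rw [h1]
  exact NN_div h.1 (Dvd.intro _ (ff_mul hm))

theorem split_NN (N : ℕ) (f : ℕ → ℝ) :
    ∑ m ∈ NN N, f m = ∑ m ∈ TT N, f m + ∑ m ∈ UU N, f m := by
  unfold TT UU
  rw [Finset.sum_filter_add_sum_filter_not]

/-- the key inequality on paired integers -/
theorem RR_ge {A : Set ℕ} (hA : GPFree A) {N m : ℕ} (hm : m ∈ UU N) :
    WF - C0 A (hh m) - C1 A (ff m) ≤ RR A m := by
  unfold UU at hm
  rw [Finset.mem_filter] at hm
  have hm0 := NN_ne hm.1
  have hh0 := hh_pos hm0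
  have hP := one_lt_PP (SS_prime (m := m)) hm.2
  unfold WF C0 C1 RR
  rw [← Finset.sum_sub_distrib, ← Finset.sum_sub_distrib]
  apply Finset.sum_le_sum
  intro i hi
  obtain ⟨-, h2, -, h4, h5, h6, h7, -⟩ := tab (Finset.mem_range.1 hi)
  have h2' : (0 : ℝ) < el i := by exact_mod_cast h2
  have h8 := (tab h4).2.1
  have key : 1 ≤ rho A (el (ixh i) * hh m) + rho A (el (ixf i) * ff m) + rho A (el i * m) := by
    apply rho_gp hA
    · exact Nat.mul_pos h8 hh0
    · calc el (ixh i) * hh m ≤ el (ixf i) * hh m := Nat.mul_le_mul_right _ h7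
        _ < el (ixf i) * ff m := by
          apply Nat.mul_lt_mul_of_pos_left
          · unfold ff
            exact lt_mul_of_one_lt_left hh0 hP
          · exact lt_of_lt_of_le h8 h7
    · calc el (ixh i) * hh m * (el i * m) = (el (ixh i) * el i) * (hh m * m) := by ring
        _ = (el (ixf i) * el (ixf i)) * (hh m * (PP (SS m) ^ 2 * hh m)) := by
          rw [h6, hh_mul hm0]
        _ = el (ixf i) * ff m * (el (ixf i) * ff m) := by
          unfold ff
          ring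
  have key' : (1 : ℝ) ≤ rho A (el (ixh i) * hh m) + rho A (el (ixf i) * ff m) +
      rho A (el i * m) := by exact_mod_cast key
  rw [← sub_div, ← sub_div]
  apply div_le_div_of_nonneg_right _ h2'.le
  linarith

theorem sum_over_hh (N : ℕ) (g : ℕ → ℝ) (hg : ∀ t, 0 ≤ g t) :
    ∑ m ∈ UU N, g (hh m) / m ≤ 522 / 10000 * ∑ t ∈ TT N, g t / t := by
  classical
  set G : ℕ × Finset ℕ → ℝ := fun p => g p.1 / p.1 * (1 / (PP p.2 : ℝ) ^ 2) with hG
  have h1 : ∑ m ∈ UU N, g (hh m) / m = ∑ m ∈ UU N, G (hh m, SS m) := by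
    apply Finset.sum_congr rfl
    intro m hm
    unfold UU at hm
    rw [Finset.mem_filter] at hm
    have hm0 := NN_ne hm.1
    have e : (m : ℝ) = (PP (SS m) : ℝ) ^ 2 * hh m := by exact_mod_cast (hh_mul hm0).symm
    have hP : (PP (SS m) : ℝ) ≠ 0 := by exact_mod_cast (PP_pos SS_prime).ne'
    have hH : (hh m : ℝ) ≠ 0 := by exact_mod_cast (hh_pos hm0).ne'
    simp only [hG]
    rw [show g (hh m) / (m : ℝ) = g (hh m) / ((PP (SS m) : ℝ) ^ 2 * hh m) by rw [← e]]
    field_simp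
  have hinj : Set.InjOn (fun m => (hh m, SS m)) ((UU N : Finset ℕ) : Set ℕ) := by
    intro a ha b hb hab
    simp only [Prod.mk.injEq] at hab
    have ha' : a ∈ UU N := ha
    have hb' : b ∈ UU N := hb
    unfold UU at ha' hb'
    rw [Finset.mem_filter] at ha' hb'
    rw [← hh_mul (NN_ne ha'.1), ← hh_mul (NN_ne hb'.1), hab.1, hab.2]
  rw [h1, ← Finset.sum_image (g := fun m => (hh m, SS m)) (f := G) hinj]
  have hsub : (UU N).image (fun m => (hh m, SS m)) ⊆ TT N ×ˢ (QS.powerset.erase ∅) := by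
    intro p hp
    rw [Finset.mem_image] at hp
    obtain ⟨m, hm, rfl⟩ := hp
    rw [Finset.mem_product]
    refine ⟨hh_mem hm, ?_⟩
    rw [Finset.mem_erase, Finset.mem_powerset]
    unfold UU at hm
    rw [Finset.mem_filter] at hm
    exact ⟨hm.2, Finset.filter_subset _ _⟩
  have hnn : ∀ p, 0 ≤ G p := by
    intro p
    have := hg p.1
    simp only [hG]
    positivity
  refine (Finset.sum_le_sum_of_subset_of_nonneg hsub (fun p _ _ => hnn p)).trans ?_
  rw [Finset.sum_product]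
  simp only [hG, ← Finset.mul_sum]
  rw [← Finset.sum_mul, mul_comm (522 / 10000 : ℝ)]
  apply mul_le_mul_of_nonneg_left _ (Finset.sum_nonneg (fun t _ => by have := hg t; positivity))
  have h2 : ∑ S ∈ QS.powerset, 1 / (PP S : ℝ) ^ 2 = ∏ q ∈ QS, (1 + 1 / (q : ℝ) ^ 2) := by
    rw [Finset.prod_one_add]
    apply Finset.sum_congr rfl
    intro S _
    unfold PP
    push_cast
    rw [Finset.prod_div_distrib, Finset.prod_pow, Finset.prod_const_one]
  have h3 := Finset.sum_erase_eq_sub (f := fun S : Finset ℕ => 1 / (PP S : ℝ) ^ 2)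
    (Finset.empty_mem_powerset QS)
  rw [h3, h2]
  have h4 : (PP ∅ : ℝ) = 1 := by unfold PP; simp
  have := prod_QS_le
  rw [h4]
  linarith

theorem XX_QL (t : ℕ) : XX QL t = ∏ q ∈ QS with q ∣ t, (1 + 1 / (q : ℝ)) := by
  unfold XX QS
  rw [Finset.prod_filter, List.prod_toFinset _ QL_nodup]

theorem sum_over_ff (N : ℕ) (g : ℕ → ℝ) (hg : ∀ t, 0 ≤ g t) :
    ∑ m ∈ UU N, g (ff m) / m ≤ ∑ t ∈ TT N, (XX QL t - 1) * g t / t := by
  classical
  set G : (Σ _ : ℕ, Finset ℕ) → ℝ := fun p => g p.1 / p.1 * (1 / (PP p.2 : ℝ)) with hG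
  have h1 : ∑ m ∈ UU N, g (ff m) / m = ∑ m ∈ UU N, G ⟨ff m, SS m⟩ := by
    apply Finset.sum_congr rfl
    intro m hm
    unfold UU at hm
    rw [Finset.mem_filter] at hm
    have hm0 := NN_ne hm.1
    have e : (m : ℝ) = (PP (SS m) : ℝ) * ff m := by exact_mod_cast (ff_mul hm0).symm
    have hP : (PP (SS m) : ℝ) ≠ 0 := by exact_mod_cast (PP_pos SS_prime).ne'
    have hF0 : 0 < ff m := by
      unfold ff
      exact Nat.mul_pos (PP_pos SS_prime) (hh_pos hm0)
    have hH : (ff m : ℝ) ≠ 0 := by exact_mod_cast hF0.ne'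
    simp only [hG]
    rw [show g (ff m) / (m : ℝ) = g (ff m) / ((PP (SS m) : ℝ) * ff m) by rw [← e]]
    field_simp
  have hinj : Set.InjOn (fun m => (⟨ff m, SS m⟩ : Σ _ : ℕ, Finset ℕ))
      ((UU N : Finset ℕ) : Set ℕ) := by
    intro a ha b hb hab
    simp only [Sigma.mk.injEq, heq_eq_eq] at hab
    have ha' : a ∈ UU N := ha
    have hb' : b ∈ UU N := hb
    unfold UU at ha' hb'
    rw [Finset.mem_filter] at ha' hb'
    rw [← ff_mul (NN_ne ha'.1), ← ff_mul (NN_ne hb'.1), hab.1, hab.2]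
  rw [h1, ← Finset.sum_image (g := fun m => (⟨ff m, SS m⟩ : Σ _ : ℕ, Finset ℕ)) (f := G) hinj]
  have hsub : (UU N).image (fun m => (⟨ff m, SS m⟩ : Σ _ : ℕ, Finset ℕ)) ⊆
      (TT N).sigma (fun t => ({q ∈ QS | q ∣ t} : Finset ℕ).powerset.erase ∅) := by
    intro p hp
    rw [Finset.mem_image] at hp
    obtain ⟨m, hm, rfl⟩ := hp
    rw [Finset.mem_sigma]
    refine ⟨ff_mem hm, ?_⟩
    rw [Finset.mem_erase, Finset.mem_powerset]
    unfold UU at hm
    rw [Finset.mem_filter] at hm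
    refine ⟨hm.2, ?_⟩
    intro q hq
    rw [Finset.mem_filter]
    refine ⟨(mem_SS.1 hq).1, ?_⟩
    unfold ff
    exact (Finset.dvd_prod_of_mem (fun q => q) hq).mul_right _
  have hnn : ∀ p, 0 ≤ G p := by
    intro p
    have := hg p.1
    simp only [hG]
    positivity
  refine (Finset.sum_le_sum_of_subset_of_nonneg hsub (fun p _ _ => hnn p)).trans ?_
  rw [Finset.sum_sigma]
  apply le_of_eq
  apply Finset.sum_congr rfl
  intro t _
  simp only [hG, ← Finset.mul_sum]
  have h2 : ∑ S ∈ ({q ∈ QS | q ∣ t} : Finset ℕ).powerset, 1 / (PP S : ℝ) = XX QL t := by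
    rw [XX_QL, Finset.prod_one_add]
    apply Finset.sum_congr rfl
    intro S _
    unfold PP
    push_cast
    rw [Finset.prod_div_distrib, Finset.prod_const_one]
  have h3 := Finset.sum_erase_eq_sub (f := fun S : Finset ℕ => 1 / (PP S : ℝ))
    (Finset.empty_mem_powerset ({q ∈ QS | q ∣ t} : Finset ℕ))
  rw [h3, h2]
  have h4 : (PP ∅ : ℝ) = 1 := by unfold PP; simp
  rw [h4]
  ring

/-- logarithmic sum of the unpaired integers -/
noncomputable def LT (N : ℕ) : ℝ := ∑ t ∈ TT N, (1 : ℝ) / t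

theorem main_lower {A : Set ℕ} (hA : GPFree A) (N : ℕ) :
    (WF - 11 / 10000 - 33 / 2 * (26583 / 100000000)) * L0 N - (WF - 91998 / 100000) * LT N ≤
      ∑ m ∈ NN N, RR A m / m := by
  have h1 : ∑ m ∈ UU N, (WF - C0 A (hh m) - C1 A (ff m)) / m ≤ ∑ m ∈ UU N, RR A m / m := by
    apply Finset.sum_le_sum
    intro m hm
    exact div_le_div_of_nonneg_right (RR_ge hA hm) (Nat.cast_nonneg m)
  have h2 : ∑ m ∈ UU N, (WF - C0 A (hh m) - C1 A (ff m)) / m =
      WF * ∑ m ∈ UU N, (1 : ℝ) / m - ∑ m ∈ UU N, C0 A (hh m) / m -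
        ∑ m ∈ UU N, C1 A (ff m) / m := by
    rw [Finset.mul_sum, ← Finset.sum_sub_distrib, ← Finset.sum_sub_distrib]
    apply Finset.sum_congr rfl
    intro m _
    ring
  have h3 := sum_over_hh N (C0 A) (C0_nonneg A)
  have h4 := sum_over_ff N (C1 A) (C1_nonneg A)
  have h5 := split_NN N (fun m => RR A m / m)
  have h6 := split_NN N (fun m => (1 : ℝ) / m)
  have h7 : ∑ t ∈ TT N, (91998 / 100000 - (11 / 10000 + 33 / 2 * (XX QL t - 1) ^ 4)) / t ≤
      ∑ t ∈ TT N, (RR A t - 522 / 10000 * C0 A t - (XX QL t - 1) * C1 A t) / t := by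
    apply Finset.sum_le_sum
    intro t ht
    unfold TT at ht
    rw [Finset.mem_filter] at ht
    apply div_le_div_of_nonneg_right _ (Nat.cast_nonneg t)
    have := one_le_XX QL t
    exact block_ineq hA (Nat.pos_of_ne_zero (NN_ne ht.1)) (by linarith)
  have h8 : ∑ t ∈ TT N, (RR A t - 522 / 10000 * C0 A t - (XX QL t - 1) * C1 A t) / t =
      ∑ t ∈ TT N, RR A t / t - 522 / 10000 * ∑ t ∈ TT N, C0 A t / t -
        ∑ t ∈ TT N, (XX QL t - 1) * C1 A t / t := by
    rw [Finset.mul_sum, ← Finset.sum_sub_distrib, ← Finset.sum_sub_distrib]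
    apply Finset.sum_congr rfl
    intro m _
    ring
  have h9 : ∑ t ∈ TT N, (11 / 10000 + 33 / 2 * (XX QL t - 1) ^ 4) / t ≤
      ∑ t ∈ NN N, (11 / 10000 + 33 / 2 * (XX QL t - 1) ^ 4) / t := by
    apply Finset.sum_le_sum_of_subset_of_nonneg (Finset.filter_subset _ _)
    intro t _ _
    have := one_le_XX QL t
    have h : 0 ≤ XX QL t - 1 := by linarith
    positivity
  have h10 : ∑ t ∈ NN N, (11 / 10000 + 33 / 2 * (XX QL t - 1) ^ 4) / t =
      11 / 10000 * L0 N + 33 / 2 * MM 4 QL N := by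
    unfold L0 MM
    rw [Finset.mul_sum, Finset.mul_sum, ← Finset.sum_add_distrib]
    apply Finset.sum_congr rfl
    intro m _
    ring
  have h11 : ∑ t ∈ TT N, (91998 / 100000 - (11 / 10000 + 33 / 2 * (XX QL t - 1) ^ 4)) / t =
      91998 / 100000 * LT N - ∑ t ∈ TT N, (11 / 10000 + 33 / 2 * (XX QL t - 1) ^ 4) / t := by
    unfold LT
    rw [Finset.mul_sum, ← Finset.sum_sub_distrib]
    apply Finset.sum_congr rfl
    intro m _
    ring
  have h12 := fourth_moment N
  have h13 : L0 N = LT N + ∑ m ∈ UU N, (1 : ℝ) / m := h6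
  have h14 : WF * ∑ m ∈ UU N, (1 : ℝ) / m = WF * L0 N - WF * LT N := by
    rw [h13]
    ring
  rw [h5]
  linarith

end Pool.Agent.GPF
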