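import Mathlib
import Pool.Agent.Lib.GPF.Regroup

/-!
Upper bound for the density of a set without rational progressions.
-/

open Finset Filter Topology

namespace Pool.Agent.GPF

theorem el_lt {i j : ℕ} (hij : i < j) (hj : j < 233) : el i < el j := by
  induction j with
  | zero => omega
  | succ j ih =>
    have h := (tab hj).2.2.2.2.2.2.2
    have h2 : el j < el (j + 1) := by
      rcases h with h | h
      · omega
      · exact h
    rcases Nat.lt_succ_iff_lt_or_eq.1 hij with h3 | h3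
    · exact (ih h3 (by omega)).trans h2
    · rw [h3]; exact h2

theorem el_inj {i j : ℕ} (hi : i < 233) (hj : j < 233) (h : el i = el j) : i = j := by
  rcases lt_trichotomy i j with h1 | h1 | h1
  · exact absurd h (el_lt h1 hj).ne
  · exact h1
  · exact absurd h.symm (el_lt h1 hi).ne

theorem coprime_el {i m : ℕ} (hi : i < 233) (hm : Nat.Coprime m 30) : Nat.Coprime (el i) m := by
  have h1 : el i ∣ LL := Dvd.intro _ (tab hi).1
  have h2 : LL ∣ 30 ^ 14 := by
    unfold LL
    norm_num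
  exact (Nat.Coprime.coprime_dvd_right (h1.trans h2) (hm.pow_right 14)).symm

theorem el_mul_inj {i j m n : ℕ} (hi : i < 233) (hj : j < 233) (hm : Nat.Coprime m 30)
    (hn : Nat.Coprime n 30) (h : el i * m = el j * n) : i = j ∧ m = n := by
  have h1 : el i ∣ el j := by
    apply (coprime_el hi hn).dvd_of_dvd_mul_right
    rw [← h]
    exact Dvd.intro _ rfl
  have h2 : el j ∣ el i := by
    apply (coprime_el hj hm).dvd_of_dvd_mul_right
    rw [h]
    exact Dvd.intro _ rfl
  have h3 := Nat.dvd_antisymm h1 h2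
  refine ⟨el_inj hi hj h3, ?_⟩
  rw [h3] at h
  exact Nat.eq_of_mul_eq_mul_left (tab hj).2.1 h

theorem lsum_compl (A : Set ℕ) (N : ℕ) :
    lsum Aᶜ N = ∑ n ∈ Icc 1 N, (rho A n : ℝ) / n := by
  classical
  unfold lsum
  rw [Finset.sum_filter]
  apply Finset.sum_congr rfl
  intro n _
  unfold rho
  by_cases h : n ∈ A
  · rw [if_neg (by simpa using h), if_pos h]
    simp
  · rw [if_pos (by simpa using h), if_neg h]
    simp

theorem blocks_le (A : Set ℕ) (N : ℕ) :
    ∑ m ∈ NN N, RR A m / m ≤ lsum Aᶜ (30000 * N) := by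
  classical
  rw [lsum_compl]
  set G : ℕ → ℝ := fun n => (rho A n : ℝ) / n with hG
  have h1 : ∑ m ∈ NN N, RR A m / m = ∑ p ∈ NN N ×ˢ range 233, G (el p.2 * p.1) := by
    rw [Finset.sum_product]
    apply Finset.sum_congr rfl
    intro m _
    unfold RR
    rw [Finset.sum_div]
    apply Finset.sum_congr rfl
    intro i _
    simp only [hG]
    push_cast
    rw [div_div]
  have hinj : Set.InjOn (fun p : ℕ × ℕ => el p.2 * p.1)
      ((NN N ×ˢ range 233 : Finset (ℕ × ℕ)) : Set (ℕ × ℕ)) := by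
    intro p hp q hq h
    rw [Finset.mem_coe, Finset.mem_product, mem_NN, Finset.mem_range] at hp hq
    have := el_mul_inj hp.2 hq.2 hp.1.2.2 hq.1.2.2 h
    exact Prod.ext this.2 this.1
  rw [h1, ← Finset.sum_image (g := fun p : ℕ × ℕ => el p.2 * p.1) (f := G) hinj]
  apply Finset.sum_le_sum_of_subset_of_nonneg
  · intro n hn
    rw [Finset.mem_image] at hn
    obtain ⟨p, hp, rfl⟩ := hn
    rw [Finset.mem_product, mem_NN, Finset.mem_range] at hp
    rw [Finset.mem_Icc]
    have h2 := tab hp.2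
    exact ⟨Nat.mul_pos h2.2.1 hp.1.1, Nat.mul_le_mul h2.2.2.1 hp.1.2.1⟩
  · intro n _ _
    simp only [hG]
    positivity

/-- the integers coprime to 30 -/
def Cop : Set ℕ := {m | Nat.Coprime m 30}

/-- the integers coprime to 30 all of whose exponents are 0, 1, 3 or 4 -/
def Tset : Set ℕ :=
  {m | Nat.Coprime m 30 ∧ ∀ q, q.Prime → (q ^ 2 ∣ m → q ^ 3 ∣ m) ∧ ¬ q ^ 5 ∣ m}

theorem L0_eq (N : ℕ) : L0 N = lsum Cop N := by
  classical
  unfold L0 lsum NN Cop
  apply Finset.sum_congr _ (fun _ _ => rfl)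
  ext m
  simp

theorem cnt_Cop : cnt Cop 30 = 8 := by
  classical
  have h : cnt Cop 30 = #{m ∈ Icc 1 30 | Nat.Coprime m 30} := by
    unfold cnt Cop
    congr 1
    ext m
    simp
  rw [h]
  decide +kernel

theorem hasDensity_Cop : HasDensity Cop (4 / 15) := by
  have h := hasDensity_periodic Cop 30 (by norm_num) (fun n => by
    unfold Cop
    simp only [Set.mem_ofPred_eq]
    rw [Nat.coprime_add_self_left]) 8 cnt_Cop
  norm_num at h
  exact h

/-- large odd numbers -/
def BB (N : ℕ) : Finset ℕ := {q ∈ Icc 2000 N | q % 2 = 1}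

theorem sum_BB (N : ℕ) : ∑ q ∈ BB N, 1 / (q : ℝ) ^ 2 ≤ 1 / 4000 := by
  have h1 : ∀ M : ℕ, ∑ j ∈ Ico 1000 (1000 + M), (1 / 4 : ℝ) * (1 / (j : ℝ) - 1 / ((j : ℝ) + 1)) ≤
      1 / 4000 - 1 / 4 * (1 / ((1000 + M : ℕ) : ℝ)) := by
    intro M
    induction M with
    | zero => norm_num
    | succ M ih =>
      rw [show 1000 + (M + 1) = (1000 + M) + 1 by ring, Finset.sum_Ico_succ_top (by omega)]
      push_cast at *
      linarith
  have h2 : ∑ q ∈ BB N, 1 / (q : ℝ) ^ 2 ≤ ∑ q ∈ BB N,
      (fun j : ℕ => (1 / 4 : ℝ) * (1 / (j : ℝ) - 1 / ((j : ℝ) + 1))) (q / 2) := by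
    apply Finset.sum_le_sum
    intro q hq
    unfold BB at hq
    rw [Finset.mem_filter, Finset.mem_Icc] at hq
    have e : q = 2 * (q / 2) + 1 := by omega
    have hj : 0 < q / 2 := by omega
    have hj' : (0 : ℝ) < ((q / 2 : ℕ) : ℝ) := by exact_mod_cast hj
    have e' : (q : ℝ) = 2 * ((q / 2 : ℕ) : ℝ) + 1 := by exact_mod_cast e
    rw [e']
    simp only
    generalize ((q / 2 : ℕ) : ℝ) = j at *
    rw [div_sub_div _ _ hj'.ne' (by positivity), ← mul_div_assoc, div_le_div_iff₀ (by positivity)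
      (by positivity)]
    nlinarith
  have hinj : Set.InjOn (fun q : ℕ => q / 2) ((BB N : Finset ℕ) : Set ℕ) := by
    intro a ha b hb hab
    have ha' : a ∈ BB N := ha
    have hb' : b ∈ BB N := hb
    unfold BB at ha' hb'
    rw [Finset.mem_filter] at ha' hb'
    simp only at hab
    omega
  refine h2.trans ?_
  rw [← Finset.sum_image (g := fun q : ℕ => q / 2)
    (f := fun j : ℕ => (1 / 4 : ℝ) * (1 / (j : ℝ) - 1 / ((j : ℝ) + 1))) hinj]
  have h3 : (BB N).image (fun q : ℕ => q / 2) ⊆ Ico 1000 (1000 + N) := by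
    intro j hj
    rw [Finset.mem_image] at hj
    obtain ⟨q, hq, rfl⟩ := hj
    unfold BB at hq
    rw [Finset.mem_filter, Finset.mem_Icc] at hq
    rw [Finset.mem_Ico]
    omega
  refine (Finset.sum_le_sum_of_subset_of_nonneg h3 ?_).trans ?_
  · intro j hj _
    rw [Finset.mem_Ico] at hj
    have hj' : (0 : ℝ) < (j : ℝ) := by exact_mod_cast (by omega : 0 < j)
    have : 1 / ((j : ℝ) + 1) ≤ 1 / (j : ℝ) := one_div_le_one_div_of_le hj' (by linarith)
    linarith
  · have := h1 N
    have h4 : (0 : ℝ) ≤ 1 / 4 * (1 / ((1000 + N : ℕ) : ℝ)) := by positivity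
    linarith

theorem sum_dvd_le (N d : ℕ) (hd : 0 < d) :
    ∑ m ∈ NN N with d ∣ m, (1 : ℝ) / m ≤ 1 / (d : ℝ) * L0 N :=
  dil N d (fun _ => 1) (fun _ => zero_le_one) hd

theorem prime_big {q m : ℕ} (hq : q.Prime) (hm : Nat.Coprime m 30) (hd : q ∣ m) (N : ℕ)
    (hmN : m ≤ N) (hm0 : 0 < m) : q ∈ QS ∨ q ∈ BB N := by
  have hqm : q ≤ N := (Nat.le_of_dvd hm0 hd).trans hmN
  have h30 : ¬ q ∣ 30 := by
    intro h
    have := Nat.dvd_gcd hd h
    rw [hm] at this
    exact hq.one_lt.ne' (Nat.dvd_one.1 this)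
  have h5 : 5 < q := by
    by_contra hc
    have h2 := hq.two_le
    interval_cases q
    · exact h30 (by norm_num)
    · exact h30 (by norm_num)
    · exact absurd hq (by norm_num)
    · exact h30 (by norm_num)
  by_cases h : q < 2000
  · left
    exact mem_QS.2 (mem_QL_of_prime hq h5 h)
  · right
    unfold BB
    rw [Finset.mem_filter, Finset.mem_Icc]
    refine ⟨⟨by omega, hqm⟩, ?_⟩
    rcases hq.eq_two_or_odd with h | h
    · omega
    · exact h

theorem ite_nn (p : Prop) [Decidable p] (m : ℕ) : (0 : ℝ) ≤ if p then (1 : ℝ) / m else 0 := by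
  split_ifs
  · positivity
  · exact le_rfl

theorem cover_le (N k : ℕ) (S : Finset ℕ) (hS : S ⊆ NN N)
    (hcov : ∀ m ∈ S, (∃ q ∈ QS, q ^ k ∣ m) ∨ ∃ q ∈ BB N, q ^ 2 ∣ m) :
    ∑ m ∈ S, (1 : ℝ) / m ≤ (∑ q ∈ QS, 1 / (q : ℝ) ^ k + 1 / 4000) * L0 N := by
  classical
  have hL := L0_nonneg N
  have h1 : ∑ m ∈ S, (1 : ℝ) / m ≤ ∑ m ∈ NN N,
      (∑ q ∈ QS, (if q ^ k ∣ m then (1 : ℝ) / m else 0) +
        ∑ q ∈ BB N, (if q ^ 2 ∣ m then (1 : ℝ) / m else 0)) := by
    have h2 : ∑ m ∈ S, (1 : ℝ) / m ≤ ∑ m ∈ S,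
      (∑ q ∈ QS, (if q ^ k ∣ m then (1 : ℝ) / m else 0) +
        ∑ q ∈ BB N, (if q ^ 2 ∣ m then (1 : ℝ) / m else 0)) := by
      apply Finset.sum_le_sum
      intro m hm
      have n1 : 0 ≤ ∑ q ∈ QS, (if q ^ k ∣ m then (1 : ℝ) / m else 0) :=
        Finset.sum_nonneg (fun q _ => ite_nn _ _)
      have n2 : 0 ≤ ∑ q ∈ BB N, (if q ^ 2 ∣ m then (1 : ℝ) / m else 0) :=
        Finset.sum_nonneg (fun q _ => ite_nn _ _)
      rcases hcov m hm with ⟨q, hq, hd⟩ | ⟨q, hq, hd⟩
      · have := Finset.single_le_sum (f := fun q => if q ^ k ∣ m then (1 : ℝ) / m else 0)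
          (fun q _ => ite_nn _ _) hq
        simp only [if_pos hd] at this
        linarith
      · have := Finset.single_le_sum (f := fun q => if q ^ 2 ∣ m then (1 : ℝ) / m else 0)
          (fun q _ => ite_nn _ _) hq
        simp only [if_pos hd] at this
        linarith
    refine h2.trans (Finset.sum_le_sum_of_subset_of_nonneg hS ?_)
    intro m _ _
    apply add_nonneg <;> exact Finset.sum_nonneg (fun q _ => ite_nn _ _)
  refine h1.trans ?_
  rw [Finset.sum_add_distrib, Finset.sum_comm, Finset.sum_comm (s := NN N) (t := BB N), add_mul]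
  apply add_le_add
  · rw [Finset.sum_mul]
    apply Finset.sum_le_sum
    intro q hq
    rw [← Finset.sum_filter]
    have := sum_dvd_le N (q ^ k) (Nat.pow_pos (QS_prime hq).pos)
    push_cast at this
    exact this
  · have h3 : ∑ q ∈ BB N, ∑ m ∈ NN N, (if q ^ 2 ∣ m then (1 : ℝ) / m else 0) ≤
        ∑ q ∈ BB N, 1 / (q : ℝ) ^ 2 * L0 N := by
      apply Finset.sum_le_sum
      intro q hq
      rw [← Finset.sum_filter]
      unfold BB at hq
      rw [Finset.mem_filter, Finset.mem_Icc] at hq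
      have := sum_dvd_le N (q ^ 2) (Nat.pow_pos (by omega))
      push_cast at this
      exact this
    refine h3.trans ?_
    rw [← Finset.sum_mul]
    exact mul_le_mul_of_nonneg_right (sum_BB N) hL

open Classical in
theorem lsum_T (N : ℕ) : lsum Tset N = ∑ m ∈ NN N with m ∈ Tset, (1 : ℝ) / m := by
  unfold lsum NN
  rw [Finset.filter_filter]
  apply Finset.sum_congr _ (fun _ _ => rfl)
  ext m
  simp only [Finset.mem_filter]
  constructor
  · rintro ⟨h1, h2⟩
    exact ⟨h1, h2.1, h2⟩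
  · rintro ⟨h1, _, h2⟩
    exact ⟨h1, h2⟩

theorem not_T {m : ℕ} (hm : Nat.Coprime m 30) (h : m ∉ Tset) :
    ∃ q, q.Prime ∧ ((q ^ 2 ∣ m ∧ ¬ q ^ 3 ∣ m) ∨ q ^ 5 ∣ m) := by
  unfold Tset at h
  simp only [Set.mem_ofPred_eq, not_and, not_forall] at h
  obtain ⟨q, hq, h2⟩ := h hm
  refine ⟨q, hq, ?_⟩
  by_cases h5 : q ^ 5 ∣ m
  · exact Or.inr h5
  · left
    by_contra hc
    apply h2
    · intro h3
      by_contra h4
      exact hc ⟨h3, h4⟩
    · exact h5

theorem LT_le (N : ℕ) : LT N ≤ lsum Tset N + (7 / 100000 + 1 / 4000) * L0 N := by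
  classical
  have hL := L0_nonneg N
  unfold LT
  rw [← Finset.sum_filter_add_sum_filter_not (TT N) (fun m => m ∈ Tset)]
  apply add_le_add
  · rw [lsum_T]
    apply Finset.sum_le_sum_of_subset_of_nonneg
    · apply Finset.filter_subset_filter
      exact Finset.filter_subset _ _
    · intro m _ _
      positivity
  · have h := cover_le N 5 {m ∈ TT N | ¬ m ∈ Tset} (by
      intro m hm
      rw [Finset.mem_filter] at hm
      unfold TT at hm
      rw [Finset.mem_filter] at hm
      exact hm.1.1) (by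
      intro m hm
      rw [Finset.mem_filter] at hm
      unfold TT at hm
      rw [Finset.mem_filter] at hm
      obtain ⟨⟨h1, h2⟩, h3⟩ := hm
      have h1' := mem_NN.1 h1
      obtain ⟨q, hq, h4⟩ := not_T h1'.2.2 h3
      have hq2 : q ^ 2 ∣ m := by
        rcases h4 with h4 | h4
        · exact h4.1
        · exact (pow_dvd_pow q (by norm_num)).trans h4
      have hqm : q ∣ m := (dvd_pow_self q (by norm_num)).trans hq2
      rcases prime_big hq h1'.2.2 hqm N h1'.2.1 h1'.1 with h5 | h5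
      · left
        refine ⟨q, h5, ?_⟩
        rcases h4 with h4 | h4
        · exfalso
          have h6 : q ∈ SS m := by
            rw [mem_SS]
            refine ⟨h5, ?_⟩
            have a1 := (Nat.Prime.pow_dvd_iff_le_factorization hq (NN_ne h1)).1 h4.1
            have a2 : ¬ 3 ≤ m.factorization q := fun h =>
              h4.2 ((Nat.Prime.pow_dvd_iff_le_factorization hq (NN_ne h1)).2 h)
            omega
          rw [h2] at h6
          exact absurd h6 (Finset.notMem_empty q)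
        · exact h4
      · right
        exact ⟨q, h5, hq2⟩)
    refine h.trans (mul_le_mul_of_nonneg_right ?_ hL)
    have := sum5_QS_le
    linarith

theorem T_ge (N : ℕ) : (1 - 511 / 10000 - 1 / 4000) * L0 N ≤ lsum Tset N := by
  classical
  have hL := L0_nonneg N
  have h1 : L0 N = ∑ m ∈ NN N with m ∈ Tset, (1 : ℝ) / m +
      ∑ m ∈ NN N with ¬ m ∈ Tset, (1 : ℝ) / m := by
    rw [Finset.sum_filter_add_sum_filter_not]
    rfl
  have h := cover_le N 2 {m ∈ NN N | ¬ m ∈ Tset} (Finset.filter_subset _ _) (by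
      intro m hm
      rw [Finset.mem_filter] at hm
      obtain ⟨h1, h3⟩ := hm
      have h1' := mem_NN.1 h1
      obtain ⟨q, hq, h4⟩ := not_T h1'.2.2 h3
      have hq2 : q ^ 2 ∣ m := by
        rcases h4 with h4 | h4
        · exact h4.1
        · exact (pow_dvd_pow q (by norm_num)).trans h4
      have hqm : q ∣ m := (dvd_pow_self q (by norm_num)).trans hq2
      rcases prime_big hq h1'.2.2 hqm N h1'.2.1 h1'.1 with h5 | h5
      · exact Or.inl ⟨q, h5, hq2⟩
      · exact Or.inr ⟨q, h5, hq2⟩)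
  rw [← lsum_T] at h1
  have h2 := sum2_QS_le
  have h3 := mul_le_mul_of_nonneg_right h2 hL
  linarith

/-- lower bound for the density of `Tset` -/
theorem delta_ge {δ : ℝ} (h : HasDensity Tset δ) :
    (1 - 511 / 10000 - 1 / 4000) * (4 / 15) ≤ δ := by
  have h1 := lsum_tendsto h
  have h2 := (lsum_tendsto hasDensity_Cop).const_mul (1 - 511 / 10000 - 1 / 4000 : ℝ)
  refine le_of_tendsto_of_tendsto h2 h1 ?_
  filter_upwards [harm_tendsto.eventually_gt_atTop 0] with N hN
  have := T_ge N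
  rw [L0_eq] at this
  rw [← mul_div_assoc]
  exact div_le_div_of_nonneg_right this hN.le

/-- upper bound for the density of a set without rational progressions -/
theorem density_le {A : Set ℕ} (hA : GPFree A) {d δ : ℝ} (hd : HasDensity A d)
    (hδ : HasDensity Tset δ) :
    (WF - 11 / 10000 - 33 / 2 * (26583 / 100000000)) * (4 / 15) -
      (WF - 91998 / 100000) * (δ + (7 / 100000 + 1 / 4000) * (4 / 15)) ≤ 1 - d := by
  have h1 := lsum_tendsto hδ
  have h2 := lsum_tendsto hasDensity_Cop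
  have h3 := lsum_tendsto (hasDensity_compl hd)
  have h4 : Tendsto (fun N : ℕ => 30000 * N) atTop atTop :=
    tendsto_id.const_mul_atTop' (by norm_num)
  have h5 := (h3.comp h4).mul (harm_mul_div_tendsto 30000 (by norm_num))
  rw [mul_one] at h5
  have h6 := (h2.const_mul (WF - 11 / 10000 - 33 / 2 * (26583 / 100000000))).sub
    ((h1.add (h2.const_mul (7 / 100000 + 1 / 4000))).const_mul (WF - 91998 / 100000))
  refine le_of_tendsto_of_tendsto h6 h5 ?_
  filter_upwards [harm_tendsto.eventually_gt_atTop 0,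
    (harm_tendsto.comp h4).eventually_gt_atTop 0] with N hN hN2
  simp only [Function.comp] at *
  have e1 := main_lower hA N
  have e2 := blocks_le A N
  have e3 := LT_le N
  have e4 : 0 ≤ WF - 91998 / 100000 := by
    rw [WF_eq]
    norm_num
  have e5 := mul_le_mul_of_nonneg_left e3 e4
  rw [L0_eq] at *
  have e6 : (lsum Aᶜ (30000 * N) / harm (30000 * N)) * (harm (30000 * N) / harm N) =
      lsum Aᶜ (30000 * N) / harm N := by
    field_simp
  rw [e6]
  have e7 : (WF - 11 / 10000 - 33 / 2 * (26583 / 100000000)) * (lsum Cop N / harm N) -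
      (WF - 91998 / 100000) * (lsum Tset N / harm N +
        (7 / 100000 + 1 / 4000) * (lsum Cop N / harm N)) =
      ((WF - 11 / 10000 - 33 / 2 * (26583 / 100000000)) * lsum Cop N -
      (WF - 91998 / 100000) * (lsum Tset N + (7 / 100000 + 1 / 4000) * lsum Cop N)) / harm N := by
    ring
  rw [e7]
  apply div_le_div_of_nonneg_right _ hN.le
  linarith

end Pool.Agent.GPF
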