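import Mathlib
import Pool.Agent.Lib.GPF.Upper

/-!
A set without integer progressions.
-/

open Finset Filter Topology

namespace Pool.Agent.GPF

/-- a finite set without integer progressions, all of whose elements are products of 2, 3, 5 -/
def E0 : List ℕ :=
  [1, 2, 3, 5, 6, 8, 10, 15, 16, 24, 27, 40, 48, 54, 60, 80, 81, 90, 120, 125, 135, 150,
   162, 180, 216, 250, 270, 300, 375, 405, 432, 450, 480, 512, 625, 648, 750, 900, 1000,
   1024, 1080, 1250, 1296, 1536, 1875, 2000, 2430, 2560, 3000, 3072, 3375, 4096, 5000,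
   5120, 6750, 7680, 8192, 10000, 10125, 11520, 12288, 13824, 16875, 17280, 18750, 19200,
   19683, 20480, 24576, 25920, 27000, 27648, 30720, 34560, 38880, 39366, 40960, 41472,
   48000, 50625, 51840, 57600, 58320, 59049, 61440, 64000, 64800, 82944, 86400, 87480,
   92160, 96000, 97200, 98415]

/-- no integer progression starts with these two elements -/
def pairOK (a b : ℕ) : Bool :=
  Nat.ble b a || !(Nat.beq (b % a) 0) || !(E0.any (Nat.beq (b * (b / a))))

/-- validity of one element -/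
def elemOK (a : ℕ) : Bool :=
  Nat.blt 0 a && Nat.beq (30 ^ 20 % a) 0 && E0.all (pairOK a)

/-- scaled weight -/
def wsum : List ℕ → ℕ
  | [] => 0
  | a :: l => wsum l + 1000000000000 / a

set_option maxRecDepth 100000 in
theorem E0_ok : E0.all elemOK = true := by
  decide +kernel

set_option maxRecDepth 100000 in
theorem E0_inc : incChk E0 0 = true := by
  decide +kernel

set_option maxRecDepth 100000 in
theorem E0_w : 2837200000000 ≤ wsum E0 := by
  decide +kernel

theorem E0_nodup : E0.Nodup := incChk_nodup _ _ E0_inc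

theorem E0_pos {a : ℕ} (ha : a ∈ E0) : 0 < a := by
  have h := List.all_eq_true.1 E0_ok a ha
  unfold elemOK at h
  simp only [Bool.and_eq_true, Nat.blt_eq] at h
  exact h.1.1

theorem E0_dvd {a : ℕ} (ha : a ∈ E0) : a ∣ 30 ^ 20 := by
  have h := List.all_eq_true.1 E0_ok a ha
  unfold elemOK at h
  simp only [Bool.and_eq_true, Nat.beq_eq] at h
  exact Nat.dvd_of_mod_eq_zero h.1.2

theorem E0_gp {a b : ℕ} (ha : a ∈ E0) (hb : b ∈ E0) (hab : a < b) (hd : a ∣ b) :
    b * (b / a) ∉ E0 := by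
  intro hc
  have h := List.all_eq_true.1 E0_ok a ha
  unfold elemOK at h
  rw [Bool.and_eq_true] at h
  have h2 := List.all_eq_true.1 h.2 b hb
  unfold pairOK at h2
  simp only [Bool.or_eq_true, Nat.ble_eq, Bool.not_eq_true'] at h2
  rcases h2 with (h2 | h2) | h2
  · omega
  · rw [Nat.mod_eq_zero_of_dvd hd] at h2
    exact absurd h2 (by decide)
  · rw [List.any_eq_false] at h2
    have := h2 _ hc
    simp at this

theorem wsum_le (l : List ℕ) (h : ∀ a ∈ l, 0 < a) :
    ((wsum l : ℕ) : ℝ) ≤ 1000000000000 * (l.map (fun a : ℕ => 1 / (a : ℝ))).sum := by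
  induction l with
  | nil => simp [wsum]
  | cons a l ih =>
    have ha : 0 < a := h a (by simp)
    have ha' : (0 : ℝ) < a := by exact_mod_cast ha
    have ih' := ih (fun b hb => h b (by simp [hb]))
    have h1 : wsum (a :: l) = wsum l + 1000000000000 / a := by rw [wsum]
    rw [h1, List.map_cons, List.sum_cons, Nat.cast_add, mul_add]
    have h2 : ((1000000000000 / a : ℕ) : ℝ) ≤ 1000000000000 * (1 / (a : ℝ)) := by
      have := @Nat.cast_div_le ℝ _ _ _ 1000000000000 a
      push_cast at this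
      rw [mul_one_div]
      exact this
    linarith

/-- total weight of the finite set -/
noncomputable def WE : ℝ := ∑ e ∈ E0.toFinset, 1 / (e : ℝ)

theorem WE_ge : 28372 / 10000 ≤ WE := by
  unfold WE
  rw [List.sum_toFinset _ E0_nodup]
  have h1 := wsum_le E0 (fun a ha => E0_pos ha)
  have h2 : (2837200000000 : ℝ) ≤ ((wsum E0 : ℕ) : ℝ) := by exact_mod_cast E0_w
  linarith

/-! ### The set with exponents 0, 1, 3, 4 -/

theorem T_exp {m : ℕ} (hm : m ∈ Tset) (hm0 : m ≠ 0) (p : ℕ) :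
    m.factorization p = 0 ∨ m.factorization p = 1 ∨ m.factorization p = 3 ∨
      m.factorization p = 4 := by
  by_cases hp : p.Prime
  · obtain ⟨h1, h2⟩ := hm.2 p hp
    rw [Nat.Prime.pow_dvd_iff_le_factorization hp hm0,
      Nat.Prime.pow_dvd_iff_le_factorization hp hm0] at h1
    rw [Nat.Prime.pow_dvd_iff_le_factorization hp hm0] at h2
    omega
  · left
    exact Nat.factorization_eq_zero_of_not_prime m hp

theorem T_ne {m : ℕ} (hm : m ∈ Tset) : m ≠ 0 := by
  intro h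
  have := hm.1
  rw [h] at this
  exact absurd this (by decide)

theorem T_gp {a b c : ℕ} (ha : a ∈ Tset) (hb : b ∈ Tset) (hc : c ∈ Tset) (h : a * c = b * b) :
    a = b := by
  have ha0 := T_ne ha
  have hb0 := T_ne hb
  have hc0 := T_ne hc
  apply Nat.eq_of_factorization_eq ha0 hb0
  intro p
  have h1 : (a * c).factorization p = (b * b).factorization p := by rw [h]
  rw [Nat.factorization_mul ha0 hc0, Nat.factorization_mul hb0 hb0, Finsupp.add_apply,
    Finsupp.add_apply] at h1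
  have e1 := T_exp ha ha0 p
  have e2 := T_exp hb hb0 p
  have e3 := T_exp hc hc0 p
  omega

/-- decomposition into the part made of 2, 3, 5 and the part coprime to 30 is unique -/
theorem smooth_unique {a b m n k : ℕ} (ha : a ∣ 30 ^ k) (hb : b ∣ 30 ^ k)
    (hm : Nat.Coprime m 30) (hn : Nat.Coprime n 30) (ha0 : 0 < a)
    (h : a * m = b * n) : a = b ∧ m = n := by
  have c1 : Nat.Coprime a n := (Nat.Coprime.coprime_dvd_right ha (hn.pow_right k)).symm
  have c2 : Nat.Coprime b m := (Nat.Coprime.coprime_dvd_right hb (hm.pow_right k)).symm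
  have h1 : a ∣ b := by
    apply c1.dvd_of_dvd_mul_right
    rw [← h]
    exact Dvd.intro _ rfl
  have h2 : b ∣ a := by
    apply c2.dvd_of_dvd_mul_right
    rw [h]
    exact Dvd.intro _ rfl
  have h3 := Nat.dvd_antisymm h1 h2
  refine ⟨h3, ?_⟩
  rw [← h3] at h
  exact Nat.eq_of_mul_eq_mul_left ha0 h

/-- the set without integer progressions -/
def Aset : Set ℕ := {n | ∃ e ∈ E0, ∃ t ∈ Tset, n = e * t}

theorem Aset_pos : ∀ n ∈ Aset, 0 < n := by
  rintro n ⟨e, he, t, ht, rfl⟩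
  exact Nat.mul_pos (E0_pos he) (Nat.pos_of_ne_zero (T_ne ht))

theorem Aset_gp : IntGPFree Aset := by
  rintro ⟨a, k, hk, ⟨e1, he1, t1, ht1, rfl⟩, ⟨e2, he2, t2, ht2, h2⟩, ⟨e3, he3, t3, ht3, h3⟩⟩
  have hp1 := E0_pos he1
  have hp2 := E0_pos he2
  have hp3 := E0_pos he3
  have h4 : (e1 * e3) * (t1 * t3) = (e2 * e2) * (t2 * t2) := by
    calc (e1 * e3) * (t1 * t3) = (e1 * t1) * (e3 * t3) := by ring
      _ = (e1 * t1) * (e1 * t1 * k ^ 2) := by rw [← h3]
      _ = (e1 * t1 * k) * (e1 * t1 * k) := by ring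
      _ = (e2 * t2) * (e2 * t2) := by rw [h2]
      _ = _ := by ring
  have d1 : e1 * e3 ∣ 30 ^ 40 := by
    have := Nat.mul_dvd_mul (E0_dvd he1) (E0_dvd he3)
    rwa [← pow_add] at this
  have d2 : e2 * e2 ∣ 30 ^ 40 := by
    have := Nat.mul_dvd_mul (E0_dvd he2) (E0_dvd he2)
    rwa [← pow_add] at this
  obtain ⟨h5, h6⟩ := smooth_unique d1 d2 (Nat.Coprime.mul_left ht1.1 ht3.1)
    (Nat.Coprime.mul_left ht2.1 ht2.1) (Nat.mul_pos hp1 hp3) h4
  have h7 := T_gp ht1 ht2 ht3 h6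
  rw [← h7] at h2
  have ht0 : 0 < t1 := Nat.pos_of_ne_zero (T_ne ht1)
  have h8 : e2 = e1 * k := by
    have : (e1 * k) * t1 = e2 * t1 := by
      rw [← h2]
      ring
    exact (Nat.eq_of_mul_eq_mul_right ht0 this).symm
  have h9 : e1 < e2 := by
    rw [h8]
    exact lt_mul_of_one_lt_right hp1 hk
  have h10 : e3 = e2 * (e2 / e1) := by
    have h11 : e2 / e1 = k := by
      rw [h8, Nat.mul_div_cancel_left _ hp1]
    rw [h11]
    apply Nat.eq_of_mul_eq_mul_left hp1
    rw [h5, h8]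
    ring
  have := E0_gp he1 he2 h9 (by rw [h8]; exact Dvd.intro _ rfl)
  rw [← h10] at this
  exact this he3

/-! ### Density of the sets -/

/-- approximating periodic sets -/
def Pset (y : ℕ) : Set ℕ :=
  {m | Nat.Coprime m 30 ∧ ∀ q, q.Prime → q ≤ y → (q ^ 2 ∣ m → q ^ 3 ∣ m) ∧ ¬ q ^ 5 ∣ m}

theorem T_sub_P (y : ℕ) : Tset ⊆ Pset y := fun _ hm => ⟨hm.1, fun q hq _ => hm.2 q hq⟩

theorem Pset_density (y : ℕ) : ∃ d, HasDensity (Pset y) d := by
  have ha : 0 < 30 * (y.factorial) ^ 5 := by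
    have := Nat.factorial_pos y
    positivity
  refine ⟨_, hasDensity_periodic (Pset y) (30 * (y.factorial) ^ 5) ha ?_ _ rfl⟩
  intro n
  have hdvd : ∀ q, q.Prime → q ≤ y → ∀ k ≤ 5,
      (q ^ k ∣ n + 30 * (y.factorial) ^ 5 ↔ q ^ k ∣ n) := by
    intro q hq hqy k hk
    have h1 : q ∣ y.factorial := (Nat.Prime.dvd_factorial hq).2 hqy
    have h2 : q ^ k ∣ 30 * (y.factorial) ^ 5 :=
      ((pow_dvd_pow q hk).trans (pow_dvd_pow_of_dvd h1 5)).mul_left 30
    exact (Nat.dvd_add_left h2)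
  unfold Pset
  simp only [Set.mem_ofPred_eq]
  have hc : Nat.Coprime (n + 30 * (y.factorial) ^ 5) 30 ↔ Nat.Coprime n 30 := by
    rw [Nat.coprime_add_mul_left_left]
  rw [hc]
  apply and_congr_right
  intro _
  apply forall_congr'
  intro q
  apply forall_congr'
  intro hq
  apply forall_congr'
  intro hqy
  rw [hdvd q hq hqy 2 (by norm_num), hdvd q hq hqy 3 (by norm_num), hdvd q hq hqy 5 le_rfl]

theorem cnt_mono {A B : Set ℕ} (h : A ⊆ B) (N : ℕ) : cnt A N ≤ cnt B N := by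
  classical
  unfold cnt
  apply Finset.card_le_card
  intro n hn
  rw [Finset.mem_filter] at *
  exact ⟨hn.1, h hn.2⟩

theorem card_multiples (N d : ℕ) : #{n ∈ Icc 1 N | d ∣ n} = N / d := by
  have : ({n ∈ Icc 1 N | d ∣ n} : Finset ℕ) = {n ∈ Ioc 0 N | d ∣ n} := by
    ext n
    simp only [Finset.mem_filter, Finset.mem_Icc, Finset.mem_Ioc]
    omega
  rw [this, Nat.Ioc_filter_dvd_card_eq_div]

theorem cnt_P_le (y N : ℕ) (hy : 0 < y) : (cnt (Pset y) N : ℝ) ≤ cnt Tset N + N / y := by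
  classical
  have hsub : ({n ∈ Icc 1 N | n ∈ Pset y} : Finset ℕ) ⊆ {n ∈ Icc 1 N | n ∈ Tset} ∪
      (Ioc y N).biUnion (fun q => {n ∈ Icc 1 N | q ^ 2 ∣ n}) := by
    intro m hm
    rw [Finset.mem_filter] at hm
    rw [Finset.mem_union]
    by_cases h : m ∈ Tset
    · left
      rw [Finset.mem_filter]
      exact ⟨hm.1, h⟩
    · right
      obtain ⟨q, hq, h4⟩ := not_T hm.2.1 h
      have hq2 : q ^ 2 ∣ m := by
        rcases h4 with h4 | h4
        · exact h4.1
        · exact (pow_dvd_pow q (by norm_num)).trans h4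
      have hm1 := Finset.mem_Icc.1 hm.1
      have hqm : q ∣ m := (dvd_pow_self q (by norm_num)).trans hq2
      have hqN : q ≤ N := (Nat.le_of_dvd (by omega) hqm).trans hm1.2
      rw [Finset.mem_biUnion]
      refine ⟨q, ?_, ?_⟩
      · rw [Finset.mem_Ioc]
        refine ⟨?_, hqN⟩
        by_contra hc
        have h5 := hm.2.2 q hq (by omega)
        rcases h4 with h4 | h4
        · exact h4.2 (h5.1 h4.1)
        · exact h5.2 h4
      · rw [Finset.mem_filter]
        exact ⟨hm.1, hq2⟩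
  have h1 : cnt (Pset y) N ≤ cnt Tset N + ∑ q ∈ Ioc y N, N / q ^ 2 := by
    unfold cnt
    refine (Finset.card_le_card hsub).trans ((Finset.card_union_le _ _).trans ?_)
    apply Nat.add_le_add_left
    refine Finset.card_biUnion_le.trans ?_
    apply Finset.sum_le_sum
    intro q _
    rw [card_multiples]
  have h2 : ((∑ q ∈ Ioc y N, N / q ^ 2 : ℕ) : ℝ) ≤ N / y := by
    push_cast
    have h3 : ∑ q ∈ Ioc y N, ((N / q ^ 2 : ℕ) : ℝ) ≤ ∑ q ∈ Ioc y N, (N : ℝ) * ((q : ℝ) ^ 2)⁻¹ := by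
      apply Finset.sum_le_sum
      intro q _
      refine (Nat.cast_div_le).trans ?_
      push_cast
      rw [div_eq_mul_inv]
    refine h3.trans ?_
    rw [← Finset.mul_sum, div_eq_mul_inv]
    apply mul_le_mul_of_nonneg_left _ (Nat.cast_nonneg N)
    rcases le_or_gt y N with h | h
    · have := sum_Ioc_inv_sq_le_sub (α := ℝ) hy.ne' h
      have h4 : (0 : ℝ) ≤ ((N : ℕ) : ℝ)⁻¹ := by positivity
      linarith
    · rw [Finset.Ioc_eq_empty_of_le h.le]
      simp
  have h5 : (cnt (Pset y) N : ℝ) ≤ ((cnt Tset N + ∑ q ∈ Ioc y N, N / q ^ 2 : ℕ) : ℝ) := by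
    exact_mod_cast h1
  rw [Nat.cast_add] at h5
  linarith

theorem Tset_density : ∃ d, HasDensity Tset d :=
  exists_density_of_approx Tset Pset Pset_density (fun y N => cnt_mono (T_sub_P y) N)
    (fun y N hy => cnt_P_le y N hy)

set_option linter.constructorNameAsVariable false in
theorem cnt_A (N : ℕ) : cnt Aset N = ∑ e ∈ E0.toFinset, cnt Tset (N / e) := by
  classical
  unfold cnt
  rw [← Finset.card_sigma]
  symm
  apply Finset.card_bij (fun (p : Σ _ : ℕ, ℕ) _ => p.1 * p.2)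
  · rintro ⟨e, t⟩ hp
    rw [Finset.mem_sigma, List.mem_toFinset, Finset.mem_filter, Finset.mem_Icc] at hp
    obtain ⟨he, ⟨ht1, ht2⟩, ht3⟩ := hp
    rw [Finset.mem_filter, Finset.mem_Icc]
    refine ⟨⟨Nat.mul_pos (E0_pos he) ht1, ?_⟩, ⟨e, he, t, ht3, rfl⟩⟩
    exact (Nat.mul_le_mul_left e ht2).trans (Nat.mul_div_le N e)
  · rintro ⟨e, t⟩ hp ⟨e', t'⟩ hp' h
    rw [Finset.mem_sigma, List.mem_toFinset, Finset.mem_filter, Finset.mem_Icc] at hp hp'
    obtain ⟨he, ⟨ht1, ht2⟩, ht3⟩ := hp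
    obtain ⟨he', ⟨ht1', ht2'⟩, ht3'⟩ := hp'
    obtain ⟨h1, h2⟩ := smooth_unique (E0_dvd he) (E0_dvd he') ht3.1 ht3'.1 (E0_pos he) h
    simp only at h1 h2
    subst h1
    subst h2
    rfl
  · intro n hn
    rw [Finset.mem_filter, Finset.mem_Icc] at hn
    obtain ⟨⟨hn1, hn2⟩, e, he, t, ht, rfl⟩ := hn
    refine ⟨⟨e, t⟩, ?_, rfl⟩
    rw [Finset.mem_sigma, List.mem_toFinset, Finset.mem_filter, Finset.mem_Icc]
    refine ⟨he, ⟨Nat.pos_of_ne_zero (T_ne ht), ?_⟩, ht⟩
    rw [Nat.le_div_iff_mul_le (E0_pos he), mul_comm]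
    exact hn2

theorem Aset_density {δ : ℝ} (h : HasDensity Tset δ) : HasDensity Aset (WE * δ) := by
  rw [hasDensity_iff]
  have h1 : Tendsto (fun N : ℕ => ∑ e ∈ E0.toFinset, (cnt Tset (N / e) : ℝ) / N) atTop
      (𝓝 (∑ e ∈ E0.toFinset, δ * (1 / (e : ℝ)))) := by
    apply tendsto_finsetSum
    intro e he
    exact cnt_div_tendsto h e (E0_pos (List.mem_toFinset.1 he))
  have h2 : ∑ e ∈ E0.toFinset, δ * (1 / (e : ℝ)) = WE * δ := by
    unfold WE
    rw [← Finset.mul_sum, mul_comm]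
  rw [h2] at h1
  refine h1.congr (fun N => ?_)
  rw [cnt_A]
  push_cast
  rw [Finset.sum_div]

/-- The main comparison. -/
theorem alpha_lt_beta : alpha < beta := by
  obtain ⟨δ, hδ⟩ := Tset_density
  have hA := Aset_density hδ
  have hge := delta_ge hδ
  have hβ : WE * δ ≤ beta := by
    unfold beta
    apply le_csSup
    · refine ⟨1, ?_⟩
      rintro d ⟨A, _, _, hd⟩
      exact density_le_one hd
    · exact ⟨Aset, Aset_pos, Aset_gp, hA⟩
  have hα : alpha ≤ 1 - ((WF - 11 / 10000 - 33 / 2 * (26583 / 100000000)) * (4 / 15) -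
      (WF - 91998 / 100000) * (δ + (7 / 100000 + 1 / 4000) * (4 / 15))) := by
    unfold alpha
    apply csSup_le
    · refine ⟨0, ∅, by simp, ?_, hasDensity_empty⟩
      rintro ⟨a, k, -, h, -⟩
      exact h
    · rintro d ⟨A, _, hgp, hd⟩
      have := density_le hgp hd hδ
      linarith
  refine lt_of_le_of_lt hα (lt_of_lt_of_le ?_ hβ)
  have hW := WE_ge
  have hδ0 : 0 ≤ δ := le_trans (by norm_num) hge
  have h1 := mul_le_mul_of_nonneg_right hW hδ0
  rw [WF_eq]
  norm_num at hge ⊢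
  linarith

end Pool.Agent.GPF
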